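import Pool.Agent.H22.RigidLifts

/-!
Sets of pairs of integer vectors with bounded entries and unique reductions modulo `m`.
-/

set_option autoImplicit false
set_option linter.unusedSectionVars false

namespace Pool.Agent.H22.BddLifts

open Finset Filter Topology Pool.Agent.N68.Corner Pool.Agent.H22.RigidLifts

/-- The finite form of the theorem. -/
theorem main_finite4 (m : ℕ) [NeZero m] {β : ℝ} (hβ : 0 < β) (L n : ℕ) :
    ∃ A : Finset ((Fin 3 × Fin n → ℤ) × (Fin 3 × Fin n → ℤ)), UniqueLifts m A ∧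
      (∀ t ∈ A, ∀ i, |t.1 i| ≤ (L : ℤ) ∧ |t.2 i| ≤ (L : ℤ)) ∧
      theta β L ^ (3 * n) ≤ 2 * (4 * (L : ℝ) + 14) ^ 2 * ((L : ℝ) ^ 2 * n + 1) ^ 9 *
        (2 + Real.sqrt (Real.pi / (3 * β / 2)) / m) ^ (6 * n) * A.card := by
  classical
  obtain ⟨r, hr⟩ := exists_r β L n
  set κ := 3 * β / 2 with hκ
  have hκ0 : 0 < κ := by rw [hκ]; positivity
  set R : ℤ := (r.1 : ℤ) + r.2.1 + r.2.2 with hR
  set Θ := 2 + Real.sqrt (Real.pi / κ) / m with hΘ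
  have hΘ1 : 1 ≤ Θ := by
    rw [hΘ]
    have : 0 ≤ Real.sqrt (Real.pi / κ) / m := by positivity
    linarith
  have hR0 : (0 : ℝ) ≤ (R : ℝ) := by
    rw [hR]; push_cast; positivity
  set E := Real.exp (κ * R) * Θ ^ (3 * n) with hE
  have hE1 : 1 ≤ E := by
    rw [hE]
    have h1 : 1 ≤ Real.exp (κ * R) := Real.one_le_exp (by positivity)
    have h2 : 1 ≤ Θ ^ (3 * n) := one_le_pow₀ hΘ1
    calc (1 : ℝ) = 1 * 1 := by ring
      _ ≤ _ := mul_le_mul h1 h2 zero_le_one (by linarith)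
  set μ := ⌊E⌋₊ with hμ
  have hμE : (μ : ℝ) ≤ E := Nat.floor_le (by linarith)
  obtain ⟨Q, hQp, hQ1, hQ2⟩ := Nat.exists_prime_lt_and_le_two_mul (6 * μ + 2 * L + 1) (by omega)
  have : Fact Q.Prime := ⟨hQp⟩
  set T : Finset ((Fin 3 × Fin n → ℤ) × (Fin 3 × Fin n → ℤ)) :=
    (Wr L n r ×ˢ (Wr L n r ×ˢ Wr L n r)).image (fun q => (mkU q, mkV q)) with hT
  have hTcard : T.card = (Wr L n r).card ^ 3 := by
    rw [hT, card_image_of_injective]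
    · rw [card_product, card_product]; ring
    · intro q q' h
      simp only [Prod.mk.injEq] at h
      exact mk_inj h.1 h.2
  have hTB : ∀ t ∈ T, t.1 ∈ Bset L n R ∧ t.2 ∈ Bset L n R ∧ t.1 + t.2 ∈ Bset L n R := by
    intro t ht
    obtain ⟨q, hq, rfl⟩ := mem_image.1 ht
    obtain ⟨hq1, hq2⟩ := mem_product.1 hq
    obtain ⟨hq2, hq3⟩ := mem_product.1 hq2
    obtain ⟨hq1, a1, a2, a3⟩ := mem_filter.1 hq1
    obtain ⟨hq2, b1, b2, b3⟩ := mem_filter.1 hq2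
    obtain ⟨hq3, c1, c2, c3⟩ := mem_filter.1 hq3
    have d1 : ∀ i, q.1 i ∈ D L := fun i => Fintype.mem_piFinset.1 hq1 i
    have d2 : ∀ i, q.2.1 i ∈ D L := fun i => Fintype.mem_piFinset.1 hq2 i
    have d3 : ∀ i, q.2.2 i ∈ D L := fun i => Fintype.mem_piFinset.1 hq3 i
    refine ⟨mem_Bset.2 ⟨?_, ?_⟩, mem_Bset.2 ⟨?_, ?_⟩, mem_Bset.2 ⟨?_, ?_⟩⟩
    · rintro ⟨j, i⟩
      fin_cases j
      · exact (mem_D.1 (d1 i)).1
      · exact (mem_D.1 (d2 i)).2.1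
      · show |-((q.2.2 i).1 + (q.2.2 i).2)| ≤ L
        rw [abs_neg]
        exact (mem_D.1 (d3 i)).2.2
    · rw [nrm_mkU, a1, b2, c3]
    · rintro ⟨j, i⟩
      fin_cases j
      · exact (mem_D.1 (d1 i)).2.1
      · show |-((q.2.1 i).1 + (q.2.1 i).2)| ≤ L
        rw [abs_neg]
        exact (mem_D.1 (d2 i)).2.2
      · exact (mem_D.1 (d3 i)).1
    · rw [nrm_mkV, a2, b3, c1, hR]
      ring
    · rintro ⟨j, i⟩
      fin_cases j
      · exact (mem_D.1 (d1 i)).2.2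
      · show |(q.2.1 i).2 + -((q.2.1 i).1 + (q.2.1 i).2)| ≤ L
        have e : (q.2.1 i).2 + -((q.2.1 i).1 + (q.2.1 i).2) = -(q.2.1 i).1 := by ring
        rw [e, abs_neg]
        exact (mem_D.1 (d2 i)).1
      · show |-((q.2.2 i).1 + (q.2.2 i).2) + (q.2.2 i).1| ≤ L
        have e : -((q.2.2 i).1 + (q.2.2 i).2) + (q.2.2 i).1 = -(q.2.2 i).2 := by ring
        rw [e, abs_neg]
        exact (mem_D.1 (d3 i)).2.1
    · rw [nrm_mkUV, a3, b1, c2, hR]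
      ring
  obtain ⟨A, hsub, hAT, hA⟩ := hash3 m L μ Q (by omega) (by omega) R (Bset L n R)
    (fun u hu => mem_Bset.1 hu) (fun x => Nat.le_floor (class_count hκ0 m L n R x)) T hTB
  refine ⟨A, hA, fun t ht i => ?_, ?_⟩
  · obtain ⟨h1, h2, h3⟩ := hTB t (hsub ht)
    exact ⟨(mem_Bset.1 h1).1 i, (mem_Bset.1 h2).1 i⟩
  rw [hTcard] at hAT
  have hAT' : ((Wr L n r).card : ℝ) ^ 3 ≤ 2 * (Q : ℝ) ^ 2 * A.card := by exact_mod_cast hAT
  -- size of `Q`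
  have hQE : (Q : ℝ) ≤ (4 * (L : ℝ) + 14) * E := by
    have h1 : (Q : ℝ) ≤ 2 * (6 * (μ : ℝ) + 2 * L + 1) := by exact_mod_cast hQ2
    have h2 : (0 : ℝ) ≤ L := by positivity
    nlinarith
  have hexp : Real.exp (-(β * ((r.1 : ℝ) + r.2.1 + r.2.2))) = Real.exp (-(β * (R : ℝ))) := by
    rw [hR]; push_cast; rfl
  rw [hexp] at hr
  set c : ℝ := ((Wr L n r).card : ℝ) with hc
  have hθ0 : 0 ≤ theta β L := sum_nonneg fun p _ => (wt_pos β p).le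
  have h1 : theta β L ^ (3 * n) ≤ (((L : ℝ) ^ 2 * n + 1) ^ 3 * (c * Real.exp (-(β * (R : ℝ))))) ^ 3 := by
    rw [mul_comm 3 n, pow_mul]
    exact pow_le_pow_left₀ (pow_nonneg hθ0 n) hr 3
  have h2 : E ^ 2 = Real.exp (3 * (β * (R : ℝ))) * Θ ^ (6 * n) := by
    rw [hE, mul_pow, ← Real.exp_nat_mul, ← pow_mul]
    congr 1
    · congr 1
      rw [hκ]; push_cast; ring
    · congr 1; ring
  have h3 : Real.exp (-(β * (R : ℝ))) ^ 3 * Real.exp (3 * (β * (R : ℝ))) = 1 := by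
    rw [← Real.exp_nat_mul, ← Real.exp_add]
    have : (((3 : ℕ) : ℝ)) * -(β * (R : ℝ)) + 3 * (β * (R : ℝ)) = 0 := by push_cast; ring
    rw [this, Real.exp_zero]
  calc theta β L ^ (3 * n)
      ≤ (((L : ℝ) ^ 2 * n + 1) ^ 3 * (c * Real.exp (-(β * (R : ℝ))))) ^ 3 := h1
    _ = ((L : ℝ) ^ 2 * n + 1) ^ 9 * Real.exp (-(β * (R : ℝ))) ^ 3 * c ^ 3 := by ring
    _ ≤ ((L : ℝ) ^ 2 * n + 1) ^ 9 * Real.exp (-(β * (R : ℝ))) ^ 3 *
          (2 * ((4 * (L : ℝ) + 14) * E) ^ 2 * A.card) := by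
        apply mul_le_mul_of_nonneg_left _ (by positivity)
        refine hAT'.trans ?_
        apply mul_le_mul_of_nonneg_right _ (Nat.cast_nonneg _)
        apply mul_le_mul_of_nonneg_left _ (by norm_num)
        exact pow_le_pow_left₀ (Nat.cast_nonneg _) hQE 2
    _ = 2 * (4 * (L : ℝ) + 14) ^ 2 * ((L : ℝ) ^ 2 * n + 1) ^ 9 *
          (Real.exp (-(β * (R : ℝ))) ^ 3 * E ^ 2) * A.card := by ring
    _ = 2 * (4 * (L : ℝ) + 14) ^ 2 * ((L : ℝ) ^ 2 * n + 1) ^ 9 * Θ ^ (6 * n) * A.card := by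
        rw [h2, ← mul_assoc (Real.exp (-(β * (R : ℝ))) ^ 3), h3, one_mul]


/-- **Unique lifts.** For every `c < (√3/2) m²` and all large `k` there is a set of at least
`c^(3k)` pairs `(u, v)` of integer vectors of dimension `3k`, such that `u`, `v` and `u + v` are
determined by their reductions modulo `m`. -/
theorem exists_lifts_bdd (m : ℕ) [NeZero m] (c : ℝ) (hc1 : 1 ≤ c)
    (hc : c < Real.sqrt 3 / 2 * (m : ℝ) ^ 2) :
    ∃ L n0 : ℕ, ∀ k, n0 ≤ k → ∃ A : Finset ((Fin 3 × Fin k → ℤ) × (Fin 3 × Fin k → ℤ)),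
      UniqueLifts m A ∧ (∀ t ∈ A, ∀ i, |t.1 i| ≤ (L : ℤ) ∧ |t.2 i| ≤ (L : ℤ)) ∧
        c ^ (3 * k) ≤ A.card := by
  classical
  obtain ⟨c', hcc', hc'⟩ := exists_between hc
  have hc'1 : 1 < c' := lt_of_le_of_lt hc1 hcc'
  obtain ⟨β, L, hβ, hθ⟩ := exists_param m c' hc'
  set Θ : ℝ := 2 + Real.sqrt (Real.pi / (3 * β / 2)) / m with hΘ
  have hΘ0 : 0 < Θ := by positivity
  -- growth
  set C : ℝ := 2 * (4 * (L : ℝ) + 14) ^ 2 * ((L : ℝ) ^ 2 + 1) ^ 9 with hC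
  have hC0 : 0 < C := by positivity
  have hr : |c / c'| < 1 := by
    rw [abs_of_nonneg (by positivity), div_lt_one (by linarith)]
    exact hcc'
  have hlim := tendsto_pow_const_mul_const_pow_of_abs_lt_one 9 hr
  have hev := hlim.eventually (gt_mem_nhds (show (0 : ℝ) < 1 / C by positivity))
  obtain ⟨n1, hn1⟩ := eventually_atTop.1 hev
  refine ⟨L, max n1 1, fun k hn => ?_⟩
  have hn' : 1 ≤ k := (le_max_right _ _).trans hn
  have hn1' := hn1 (3 * k) (((le_max_left _ _).trans hn).trans (by omega))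
  obtain ⟨A, hA, hR, hAc⟩ := main_finite4 m hβ L k
  refine ⟨A, hA, hR, ?_⟩
  -- the estimate
  have h2 : c' ^ (3 * k) * Θ ^ (6 * k) ≤ theta β L ^ (3 * k) := by
    have : c' ^ (3 * k) * Θ ^ (6 * k) = (c' * Θ ^ 2) ^ (3 * k) := by
      rw [mul_pow, ← pow_mul]
      congr 2
      ring
    rw [this]
    exact pow_le_pow_left₀ (by positivity) hθ _
  have h3 := h2.trans hAc
  have h4 : c' ^ (3 * k) ≤ 2 * (4 * (L : ℝ) + 14) ^ 2 * ((L : ℝ) ^ 2 * k + 1) ^ 9 * A.card := by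
    have hpos : 0 < Θ ^ (6 * k) := by positivity
    refine le_of_mul_le_mul_right ?_ hpos
    calc c' ^ (3 * k) * Θ ^ (6 * k) ≤ _ := h3
      _ = _ := by ring
  have h5 : ((L : ℝ) ^ 2 * k + 1) ^ 9 ≤ ((L : ℝ) ^ 2 + 1) ^ 9 * ((3 * k : ℕ) : ℝ) ^ 9 := by
    rw [← mul_pow]
    apply pow_le_pow_left₀ (by positivity)
    have a2 : (1 : ℝ) ≤ k := by exact_mod_cast hn'
    have a3 : (0 : ℝ) ≤ (L : ℝ) ^ 2 := by positivity
    push_cast
    nlinarith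
  have h7 : c' ^ (3 * k) ≤ C * ((3 * k : ℕ) : ℝ) ^ 9 * A.card := by
    calc c' ^ (3 * k) ≤ (2 * (4 * (L : ℝ) + 14) ^ 2 * A.card) * ((L : ℝ) ^ 2 * k + 1) ^ 9 := by
          linarith
      _ ≤ (2 * (4 * (L : ℝ) + 14) ^ 2 * A.card) *
          (((L : ℝ) ^ 2 + 1) ^ 9 * ((3 * k : ℕ) : ℝ) ^ 9) :=
        mul_le_mul_of_nonneg_left h5 (by positivity)
      _ = C * ((3 * k : ℕ) : ℝ) ^ 9 * A.card := by rw [hC]; ring
  -- conclusion
  have hc'n : 0 < c' ^ (3 * k) := by positivity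
  have h8 : C * ((3 * k : ℕ) : ℝ) ^ 9 * c ^ (3 * k) ≤ c' ^ (3 * k) := by
    rw [div_pow, lt_div_iff₀ hC0, ← mul_div_assoc, div_mul_eq_mul_div, div_lt_one hc'n] at hn1'
    calc C * ((3 * k : ℕ) : ℝ) ^ 9 * c ^ (3 * k)
        = ((3 * k : ℕ) : ℝ) ^ 9 * c ^ (3 * k) * C := by ring
      _ ≤ c' ^ (3 * k) := hn1'.le
  have h9 := h8.trans h7
  have h10 : 0 < C * ((3 * k : ℕ) : ℝ) ^ 9 := by
    have : (0 : ℝ) < ((3 * k : ℕ) : ℝ) := by exact_mod_cast (by omega : 0 < 3 * k)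
    positivity
  exact le_of_mul_le_mul_left h9 h10


end Pool.Agent.H22.BddLifts
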