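import Pool.Agent.H22.BddLifts
import Pool.Graph.R_pool_sql_team_seeded_63374d34.N68.Corner.Cover

/-!
From pairs of integer vectors with unique reductions modulo `2` to small subsets of `ℤ/Q` which
contain a three-term progression with every common difference.
-/

set_option autoImplicit false
set_option linter.unusedSectionVars false

namespace Pool.Agent.H22.Dense

open Finset Pool.Agent.N68.Corner Pool.Agent.H22.RigidLifts

lemma card_le_image_add {α β : Type*} [DecidableEq α] [DecidableEq β] (A : Finset α) (g : α → β) :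
    A.card ≤ (A.image g).card +
      ((A ×ˢ A).filter (fun z => z.1 ≠ z.2 ∧ g z.1 = g z.2)).card := by
  classical
  rcases A.eq_empty_or_nonempty with hA | hA
  · subst hA
    simp
  have : Nonempty α := ⟨hA.choose⟩
  choose! s hs using fun (b : β) (hb : b ∈ A.image g) => mem_image.1 hb
  rw [← card_filter_add_card_filter_not (s := A) (fun t => s (g t) = t)]
  apply add_le_add
  · apply card_le_card_of_injOn g
    · intro t ht
      exact mem_coe.2 (mem_image_of_mem g (mem_filter.1 (mem_coe.1 ht)).1)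
    · intro t ht t' ht' h
      rw [← (mem_filter.1 (mem_coe.1 ht)).2, ← (mem_filter.1 (mem_coe.1 ht')).2, h]
  · apply card_le_card_of_injOn (fun t => (t, s (g t)))
    · intro t ht
      obtain ⟨h1, h2⟩ := mem_filter.1 (mem_coe.1 ht)
      obtain ⟨h3, h4⟩ := hs (g t) (mem_image_of_mem g h1)
      exact mem_coe.2 (mem_filter.2 ⟨mem_product.2 ⟨h1, h3⟩, fun h => h2 h.symm, h4.symm⟩)
    · intro t _ t' _ h
      exact congrArg Prod.fst h

variable {ι : Type*} [Fintype ι] [DecidableEq ι]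

/-- the differences determine the pairs -/
lemma diff_inj {A : Finset ((ι → ℤ) × (ι → ℤ))} (hA : UniqueLifts 2 A) {t t' : (ι → ℤ) × (ι → ℤ)}
    (ht : t ∈ A) (ht' : t' ∈ A) (h : t.1 - t.2 = t'.1 - t'.2) : t = t' := by
  obtain ⟨h1, h2, h3⟩ := hA
  have e3 : t.1 + t.2 = t'.1 + t'.2 := by
    apply h3 t ht t' ht'
    funext i
    have := congrFun h i
    simp only [Pi.sub_apply] at this
    simp only [red, Pi.add_apply]
    rw [ZMod.intCast_eq_intCast_iff_dvd_sub]
    refine ⟨t'.2 i - t.2 i, ?_⟩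
    push_cast
    linarith
  have hi : ∀ i, t.1 i = t'.1 i ∧ t.2 i = t'.2 i := by
    intro i
    have a1 := congrFun h i
    have a2 := congrFun e3 i
    simp only [Pi.sub_apply] at a1
    simp only [Pi.add_apply] at a2
    constructor <;> linarith
  exact Prod.ext (funext fun i => (hi i).1) (funext fun i => (hi i).2)

/-- a hash function under which at least half of the differences stay different -/
lemma exists_hash {Q : ℕ} [hQ : Fact Q.Prime] {A : Finset ((ι → ℤ) × (ι → ℤ))}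
    (hA : UniqueLifts 2 A) {L : ℕ} (hL : ∀ t ∈ A, ∀ i, |t.1 i| ≤ (L : ℤ) ∧ |t.2 i| ≤ (L : ℤ))
    (hQ1 : 4 * L < Q) (hQ2 : 2 * A.card ≤ Q) :
    ∃ a : ι → ZMod Q, A.card ≤ 2 * (A.image (fun t => dot a (t.1 - t.2))).card := by
  classical
  set P := (A ×ˢ A).filter (fun z => z.1 ≠ z.2) with hP
  have hker : ∀ z ∈ P, Q * (univ.filter (fun a : ι → ZMod Q =>
      dot a ((z.1.1 - z.1.2) - (z.2.1 - z.2.2)) = 0)).card ≤ Q ^ Fintype.card ι := by
    intro z hz
    obtain ⟨h1, h2⟩ := mem_filter.1 hz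
    obtain ⟨h3, h4⟩ := mem_product.1 h1
    obtain ⟨i0, hi0⟩ : ∃ i, ((z.1.1 - z.1.2) - (z.2.1 - z.2.2)) i ≠ 0 := by
      by_contra hcon
      push Not at hcon
      exact h2 (diff_inj hA h3 h4 (sub_eq_zero.1 (funext hcon)))
    apply card_ker _ i0
    intro hz0
    rw [ZMod.intCast_zmod_eq_zero_iff_dvd] at hz0
    apply hi0
    apply Int.eq_zero_of_abs_lt_dvd hz0
    have b1 := hL _ h3 i0
    have b2 := hL _ h4 i0
    simp only [Pi.sub_apply]
    have c1 := abs_le.1 b1.1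
    have c2 := abs_le.1 b1.2
    have c3 := abs_le.1 b2.1
    have c4 := abs_le.1 b2.2
    have hQ' : ((4 * L : ℕ) : ℤ) < Q := by exact_mod_cast hQ1
    push_cast at hQ'
    rw [abs_lt]
    constructor <;> linarith
  by_contra hcon
  push Not at hcon
  -- every `a` has many collisions
  have h1 : ∀ a : ι → ZMod Q, A.card < 2 * (P.filter (fun z =>
      dot a ((z.1.1 - z.1.2) - (z.2.1 - z.2.2)) = 0)).card := by
    intro a
    have h2 : A.card ≤ (A.image (fun t => dot a (t.1 - t.2))).card +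
        ((A ×ˢ A).filter (fun z => z.1 ≠ z.2 ∧
          dot a (z.1.1 - z.1.2) = dot a (z.2.1 - z.2.2))).card := card_le_image_add A _
    have h3 : ((A ×ˢ A).filter (fun z => z.1 ≠ z.2 ∧
          dot a (z.1.1 - z.1.2) = dot a (z.2.1 - z.2.2))).card ≤
        (P.filter (fun z => dot a ((z.1.1 - z.1.2) - (z.2.1 - z.2.2)) = 0)).card := by
      apply card_le_card
      intro z hz
      obtain ⟨h4, h5, h6⟩ := mem_filter.1 hz
      refine mem_filter.2 ⟨mem_filter.2 ⟨h4, h5⟩, ?_⟩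
      rw [dot_sub]
      exact sub_eq_zero.2 h6
    have h4 := hcon a
    omega
  have h2 : ∑ _a : ι → ZMod Q, A.card < ∑ a : ι → ZMod Q, 2 * (P.filter (fun z =>
      dot a ((z.1.1 - z.1.2) - (z.2.1 - z.2.2)) = 0)).card :=
    sum_lt_sum_of_nonempty univ_nonempty fun a _ => h1 a
  rw [sum_const, card_univ, Fintype.card_fun, ZMod.card, smul_eq_mul, ← mul_sum] at h2
  have h3 : ∑ a : ι → ZMod Q, (P.filter (fun z =>
      dot a ((z.1.1 - z.1.2) - (z.2.1 - z.2.2)) = 0)).card =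
      ∑ z ∈ P, (univ.filter (fun a : ι → ZMod Q =>
        dot a ((z.1.1 - z.1.2) - (z.2.1 - z.2.2)) = 0)).card := by
    simp only [card_filter]
    rw [sum_comm]
  rw [h3] at h2
  have h4 : Q * ∑ z ∈ P, (univ.filter (fun a : ι → ZMod Q =>
      dot a ((z.1.1 - z.1.2) - (z.2.1 - z.2.2)) = 0)).card ≤ P.card * Q ^ Fintype.card ι := by
    rw [mul_sum]
    calc _ ≤ ∑ z ∈ P, Q ^ Fintype.card ι := sum_le_sum hker
      _ = _ := by rw [sum_const, smul_eq_mul]
  have hPc : P.card ≤ A.card * A.card := by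
    rw [← card_product]
    exact card_filter_le _ _
  have hQ0 : 0 < Q := hQ.out.pos
  have hpos : 0 < Q ^ Fintype.card ι := pow_pos hQ0 _
  have h5 : Q * (Q ^ Fintype.card ι * A.card) < 2 * (A.card * A.card * Q ^ Fintype.card ι) := by
    calc Q * (Q ^ Fintype.card ι * A.card)
        < Q * (2 * ∑ z ∈ P, (univ.filter (fun a : ι → ZMod Q =>
          dot a ((z.1.1 - z.1.2) - (z.2.1 - z.2.2)) = 0)).card) :=
          Nat.mul_lt_mul_of_pos_left h2 hQ0
      _ = 2 * (Q * ∑ z ∈ P, (univ.filter (fun a : ι → ZMod Q =>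
          dot a ((z.1.1 - z.1.2) - (z.2.1 - z.2.2)) = 0)).card) := by ring
      _ ≤ 2 * (P.card * Q ^ Fintype.card ι) := Nat.mul_le_mul_left _ h4
      _ ≤ 2 * (A.card * A.card * Q ^ Fintype.card ι) :=
        Nat.mul_le_mul_left _ (Nat.mul_le_mul_right _ hPc)
  have h6 : 2 * (A.card * A.card * Q ^ Fintype.card ι) =
      (2 * A.card) * (Q ^ Fintype.card ι * A.card) := by ring
  rw [h6] at h5
  have h7 : (2 * A.card) * (Q ^ Fintype.card ι * A.card) ≤ Q * (Q ^ Fintype.card ι * A.card) :=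
    Nat.mul_le_mul_right _ hQ2
  omega

/-- the three-term progressions of the differences -/
lemma exists_base {Q : ℕ} [NeZero Q] {A : Finset ((ι → ℤ) × (ι → ℤ))} (hA : UniqueLifts 2 A)
    (a : ι → ZMod Q) :
    ∃ X0 : Finset (ZMod Q), X0.card ≤ 3 * 2 ^ Fintype.card ι ∧
      ∀ δ ∈ A.image (fun t => dot a (t.1 - t.2)), ∃ b : ZMod Q,
        b ∈ X0 ∧ b + δ ∈ X0 ∧ b + (δ + δ) ∈ X0 := by
  classical
  have e1 := card_image_le_of_red A Prod.fst (fun u => dot a u + dot a u) hA.1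
  have e2 := card_image_le_of_red A Prod.snd (fun u => dot a u + dot a u) hA.2.1
  have e3 := card_image_le_of_red A (fun t => t.1 + t.2) (fun u => dot a u) hA.2.2
  refine ⟨A.image (fun t => dot a t.1 + dot a t.1) ∪
    (A.image (fun t => dot a t.2 + dot a t.2) ∪ A.image (fun t => dot a (t.1 + t.2))), ?_, ?_⟩
  · calc _ ≤ _ := (card_union_le _ _).trans (Nat.add_le_add_left (card_union_le _ _) _)
      _ ≤ 2 ^ Fintype.card ι + (2 ^ Fintype.card ι + 2 ^ Fintype.card ι) :=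
        Nat.add_le_add e1 (Nat.add_le_add e2 e3)
      _ = _ := by ring
  · intro δ hδ
    obtain ⟨t, ht, rfl⟩ := mem_image.1 hδ
    refine ⟨dot a t.2 + dot a t.2, ?_, ?_, ?_⟩
    · rw [mem_union, mem_union]
      right; left
      exact mem_image.2 ⟨t, ht, rfl⟩
    · rw [mem_union, mem_union]
      right; right
      refine mem_image.2 ⟨t, ht, ?_⟩
      rw [dot_add, dot_sub]
      abel
    · rw [mem_union, mem_union]
      left
      refine mem_image.2 ⟨t, ht, ?_⟩
      rw [dot_sub]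
      abel

/-- translation of the differences -/
lemma exists_translates {H : Type*} [AddCommGroup H] [DecidableEq H] (X0 Δ : Finset H)
    (hX0 : ∀ δ ∈ Δ, ∃ b : H, b ∈ X0 ∧ b + δ ∈ X0 ∧ b + (δ + δ) ∈ X0) (κ : ℕ) (s : Fin κ → H)
    (hs : ∀ h, ∃ i, h - s i ∈ Δ) :
    ∃ X : Finset H, X.card ≤ κ * (3 * X0.card) ∧
      ∀ h : H, ∃ b : H, b ∈ X ∧ b + h ∈ X ∧ b + (h + h) ∈ X := by
  classical
  refine ⟨(univ : Finset (Fin κ)).biUnion (fun i =>
    X0 ∪ (X0.image (fun x => x + s i) ∪ X0.image (fun x => x + (s i + s i)))), ?_, ?_⟩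
  · refine card_biUnion_le.trans ?_
    refine (sum_le_card_nsmul _ _ (3 * X0.card) fun i _ => ?_).trans ?_
    · refine (card_union_le _ _).trans ((Nat.add_le_add_left (card_union_le _ _) _).trans ?_)
      have e1 : (X0.image (fun x => x + s i)).card ≤ X0.card := card_image_le
      have e2 : (X0.image (fun x => x + (s i + s i))).card ≤ X0.card := card_image_le
      omega
    · rw [card_univ, Fintype.card_fin, smul_eq_mul]
  · intro h
    obtain ⟨i, hi⟩ := hs h
    obtain ⟨b, hb1, hb2, hb3⟩ := hX0 _ hi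
    refine ⟨b, ?_, ?_, ?_⟩
    · exact mem_biUnion.2 ⟨i, mem_univ _, mem_union_left _ hb1⟩
    · refine mem_biUnion.2 ⟨i, mem_univ _, mem_union_right _ (mem_union_left _ ?_)⟩
      exact mem_image.2 ⟨_, hb2, by abel⟩
    · refine mem_biUnion.2 ⟨i, mem_univ _, mem_union_right _ (mem_union_right _ ?_)⟩
      exact mem_image.2 ⟨_, hb3, by abel⟩

/-- **Small sets modulo `Q` with all three-term progressions.** -/
theorem exists_mod (A : Finset ((ι → ℤ) × (ι → ℤ))) (hA : UniqueLifts 2 A) {L : ℕ}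
    (hL : ∀ t ∈ A, ∀ i, |t.1 i| ≤ (L : ℤ) ∧ |t.2 i| ≤ (L : ℤ)) (hAL : 2 * L ≤ A.card)
    (hA0 : 0 < A.card) :
    ∃ Q : ℕ, Q.Prime ∧ 2 * A.card < Q ∧ Q ≤ 4 * A.card ∧ ∃ X : Finset (ZMod Q),
      (X.card : ℝ) ≤ 9 * (8 * Real.log Q + 1) * 2 ^ Fintype.card ι ∧
      ∀ h : ZMod Q, ∃ b : ZMod Q, b ∈ X ∧ b + h ∈ X ∧ b + (h + h) ∈ X := by
  classical
  obtain ⟨Q, hQp, hQ1, hQ2⟩ := Nat.exists_prime_lt_and_le_two_mul (2 * A.card) (by omega)
  have hF : Fact Q.Prime := ⟨hQp⟩
  have hQ4 : Q ≤ 4 * A.card := by omega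
  obtain ⟨a, ha⟩ := exists_hash (Q := Q) hA hL (by omega) (by omega)
  obtain ⟨X0, hX0c, hX0p⟩ := exists_base hA a
  generalize A.image (fun t => dot a (t.1 - t.2)) = Δ at ha hX0p
  have hΔ0 : 0 < Δ.card := by omega
  obtain ⟨κ, s, hs, hκ⟩ := cover_real Δ hΔ0
  rw [ZMod.card] at hκ
  have hlog : 0 ≤ Real.log Q := Real.log_nonneg (by exact_mod_cast hQp.one_lt.le)
  have hκ2 : (κ : ℝ) ≤ 8 * Real.log Q + 1 := by
    have h1 : (Q : ℝ) / Δ.card ≤ 8 := by
      rw [div_le_iff₀ (by exact_mod_cast hΔ0)]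
      have : Q ≤ 8 * Δ.card := by omega
      exact_mod_cast this
    have h2 : Real.log Q * (Q / Δ.card) ≤ Real.log Q * 8 := mul_le_mul_of_nonneg_left h1 hlog
    linarith
  obtain ⟨X, hX1, hX2⟩ := exists_translates X0 Δ hX0p κ s hs
  refine ⟨Q, hQp, hQ1, hQ4, X, ?_, hX2⟩
  have h1 : X.card ≤ κ * (3 * (3 * 2 ^ Fintype.card ι)) :=
    hX1.trans (Nat.mul_le_mul_left _ (Nat.mul_le_mul_left _ hX0c))
  have h2 : (X.card : ℝ) ≤ κ * (3 * (3 * 2 ^ Fintype.card ι)) := by exact_mod_cast h1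
  refine h2.trans ?_
  have h3 : (κ : ℝ) * (3 * (3 * 2 ^ Fintype.card ι)) = 9 * κ * 2 ^ Fintype.card ι := by ring
  rw [h3]
  apply mul_le_mul_of_nonneg_right _ (by positivity)
  linarith

end Pool.Agent.H22.Dense
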