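import Pool.Agent.H22.Dense
import Pool.Graph.R_pool_sql_team_seeded_63374d34.Results.MP_4b405e_nt.AssouadVersion

/-!
# From progressions with many differences to progressions with every difference

Let `B w`, `D w` (`w ∈ A`) be integer vectors, `D` injective on `A`, and suppose that for each
`j < k` the vectors `B w + j D w` take at most `P` values. Then for a prime `Q` between `2 |A|` and
`4 |A|` there is a set of at most `k ^ 2 P (8 log Q + 1)` residues modulo `Q` which contains a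
`k`-term progression with every common difference, hence a set of digits.
-/

set_option autoImplicit false
set_option linter.unusedSectionVars false

namespace Pool.Agent.H22.DenseProg

open Finset Pool.Agent.N68.Corner Pool.Agent.Results.MP_4b405e_nt

variable {ι : Type*} [Fintype ι] [DecidableEq ι] {α : Type*} [DecidableEq α]

/-- a hash function under which at least half of the differences stay different -/
lemma exists_hash {Q : ℕ} [hQ : Fact Q.Prime] {A : Finset α} {D : α → ι → ℤ}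
    (hD : ∀ t ∈ A, ∀ t' ∈ A, D t = D t' → t = t') {L : ℕ} (hL : ∀ t ∈ A, ∀ i, |D t i| ≤ (L : ℤ))
    (hQ1 : 2 * L < Q) (hQ2 : 2 * A.card ≤ Q) :
    ∃ a : ι → ZMod Q, A.card ≤ 2 * (A.image (fun t => dot a (D t))).card := by
  classical
  set P := (A ×ˢ A).filter (fun z => z.1 ≠ z.2) with hP
  have hker : ∀ z ∈ P, Q * (univ.filter (fun a : ι → ZMod Q =>
      dot a (D z.1 - D z.2) = 0)).card ≤ Q ^ Fintype.card ι := by
    intro z hz
    obtain ⟨h1, h2⟩ := mem_filter.1 hz
    obtain ⟨h3, h4⟩ := mem_product.1 h1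
    obtain ⟨i0, hi0⟩ : ∃ i, (D z.1 - D z.2) i ≠ 0 := by
      by_contra hcon
      push Not at hcon
      exact h2 (hD _ h3 _ h4 (sub_eq_zero.1 (funext hcon)))
    apply card_ker _ i0
    intro hz0
    rw [ZMod.intCast_zmod_eq_zero_iff_dvd] at hz0
    apply hi0
    apply Int.eq_zero_of_abs_lt_dvd hz0
    have c1 := abs_le.1 (hL _ h3 i0)
    have c2 := abs_le.1 (hL _ h4 i0)
    simp only [Pi.sub_apply]
    have hQ' : ((2 * L : ℕ) : ℤ) < Q := by exact_mod_cast hQ1
    push_cast at hQ'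
    rw [abs_lt]
    constructor <;> linarith
  by_contra hcon
  push Not at hcon
  have h1 : ∀ a : ι → ZMod Q, A.card < 2 * (P.filter (fun z =>
      dot a (D z.1 - D z.2) = 0)).card := by
    intro a
    have h2 : A.card ≤ (A.image (fun t => dot a (D t))).card +
        ((A ×ˢ A).filter (fun z => z.1 ≠ z.2 ∧ dot a (D z.1) = dot a (D z.2))).card :=
      Dense.card_le_image_add A _
    have h3 : ((A ×ˢ A).filter (fun z => z.1 ≠ z.2 ∧ dot a (D z.1) = dot a (D z.2))).card ≤
        (P.filter (fun z => dot a (D z.1 - D z.2) = 0)).card := by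
      apply card_le_card
      intro z hz
      obtain ⟨h4, h5, h6⟩ := mem_filter.1 hz
      refine mem_filter.2 ⟨mem_filter.2 ⟨h4, h5⟩, ?_⟩
      rw [dot_sub]
      exact sub_eq_zero.2 h6
    have h4 := hcon a
    omega
  have h2 : ∑ _a : ι → ZMod Q, A.card < ∑ a : ι → ZMod Q, 2 * (P.filter (fun z =>
      dot a (D z.1 - D z.2) = 0)).card :=
    sum_lt_sum_of_nonempty univ_nonempty fun a _ => h1 a
  rw [sum_const, card_univ, Fintype.card_fun, ZMod.card, smul_eq_mul, ← mul_sum] at h2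
  have h3 : ∑ a : ι → ZMod Q, (P.filter (fun z =>
      dot a (D z.1 - D z.2) = 0)).card =
      ∑ z ∈ P, (univ.filter (fun a : ι → ZMod Q => dot a (D z.1 - D z.2) = 0)).card := by
    simp only [card_filter]
    rw [sum_comm]
  rw [h3] at h2
  have h4 : Q * ∑ z ∈ P, (univ.filter (fun a : ι → ZMod Q =>
      dot a (D z.1 - D z.2) = 0)).card ≤ P.card * Q ^ Fintype.card ι := by
    rw [mul_sum]
    calc _ ≤ ∑ z ∈ P, Q ^ Fintype.card ι := sum_le_sum hker
      _ = _ := by rw [sum_const, smul_eq_mul]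
  have hPc : P.card ≤ A.card * A.card := by
    rw [← card_product]
    exact card_filter_le _ _
  have hQ0 : 0 < Q := hQ.out.pos
  have h5 : Q * (Q ^ Fintype.card ι * A.card) < 2 * (A.card * A.card * Q ^ Fintype.card ι) := by
    calc Q * (Q ^ Fintype.card ι * A.card)
        < Q * (2 * ∑ z ∈ P, (univ.filter (fun a : ι → ZMod Q =>
          dot a (D z.1 - D z.2) = 0)).card) := Nat.mul_lt_mul_of_pos_left h2 hQ0
      _ = 2 * (Q * ∑ z ∈ P, (univ.filter (fun a : ι → ZMod Q =>
          dot a (D z.1 - D z.2) = 0)).card) := by ring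
      _ ≤ 2 * (P.card * Q ^ Fintype.card ι) := Nat.mul_le_mul_left _ h4
      _ ≤ 2 * (A.card * A.card * Q ^ Fintype.card ι) :=
        Nat.mul_le_mul_left _ (Nat.mul_le_mul_right _ hPc)
  have h6 : 2 * (A.card * A.card * Q ^ Fintype.card ι) =
      (2 * A.card) * (Q ^ Fintype.card ι * A.card) := by ring
  rw [h6] at h5
  have h7 : (2 * A.card) * (Q ^ Fintype.card ι * A.card) ≤ Q * (Q ^ Fintype.card ι * A.card) :=
    Nat.mul_le_mul_right _ hQ2
  omega

lemma dot_smul {Q : ℕ} (a : ι → ZMod Q) (j : ℕ) (u v : ι → ℤ) :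
    dot a (u + (j : ℤ) • v) = dot a u + (j : ZMod Q) * dot a v := by
  unfold dot
  rw [mul_sum, ← sum_add_distrib]
  apply sum_congr rfl
  intro i _
  simp only [Pi.add_apply, Pi.smul_apply, smul_eq_mul]
  push_cast
  ring

/-- **Small sets modulo `Q` with all `k`-term progressions.** -/
theorem exists_mod (k : ℕ) (A : Finset α) (B D : α → ι → ℤ)
    (hD : ∀ t ∈ A, ∀ t' ∈ A, D t = D t' → t = t') {L : ℕ}
    (hL : ∀ t ∈ A, ∀ i, |D t i| ≤ (L : ℤ)) (hAL : L ≤ A.card) (hA0 : 0 < A.card) {P : ℝ}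
    (hP : ∀ j : ℕ, j < k → ((A.image fun t => B t + (j : ℤ) • D t).card : ℝ) ≤ P) :
    ∃ Q : ℕ, Q.Prime ∧ 2 * A.card < Q ∧ Q ≤ 4 * A.card ∧ ∃ X : Finset (ZMod Q),
      (X.card : ℝ) ≤ (8 * Real.log Q + 1) * (k * P) ∧
      ∀ h : ZMod Q, ∃ b : ZMod Q, ∀ j : ℕ, j < k → b + j * h ∈ X := by
  classical
  obtain ⟨Q, hQp, hQ1, hQ2⟩ := Nat.exists_prime_lt_and_le_two_mul (2 * A.card) (by omega)
  have hF : Fact Q.Prime := ⟨hQp⟩
  have hQ4 : Q ≤ 4 * A.card := by omega
  obtain ⟨a, ha⟩ := exists_hash (Q := Q) hD hL (by omega) (by omega)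
  obtain ⟨Δ, hΔ⟩ : ∃ Δ : Finset (ZMod Q), Δ = A.image (fun t => dot a (D t)) := ⟨_, rfl⟩
  rw [← hΔ] at ha
  have hΔ0 : 0 < Δ.card := by omega
  obtain ⟨κ, s, hs, hκ⟩ := cover_real Δ hΔ0
  rw [ZMod.card] at hκ
  have hlog : 0 ≤ Real.log Q := Real.log_nonneg (by exact_mod_cast hQp.one_lt.le)
  have hκ2 : (κ : ℝ) ≤ 8 * Real.log Q + 1 := by
    have h1 : (Q : ℝ) / Δ.card ≤ 8 := by
      rw [div_le_iff₀ (by exact_mod_cast hΔ0)]
      have : Q ≤ 8 * Δ.card := by omega
      exact_mod_cast this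
    have h2 : Real.log Q * (Q / Δ.card) ≤ Real.log Q * 8 := mul_le_mul_of_nonneg_left h1 hlog
    linarith
  refine ⟨Q, hQp, hQ1, hQ4, (univ : Finset (Fin κ)).biUnion (fun i => (range k).biUnion fun j =>
    (A.image fun t => B t + (j : ℤ) • D t).image fun v => dot a v + (j : ZMod Q) * s i), ?_, ?_⟩
  · have h1 : ∀ (i : Fin κ) (j : ℕ), j < k →
        ((((A.image fun t => B t + (j : ℤ) • D t).image
          fun v => dot a v + (j : ZMod Q) * s i).card : ℕ) : ℝ) ≤ P := fun i j hj =>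
      le_trans (by exact_mod_cast card_image_le) (hP j hj)
    have h2 : ∀ i : Fin κ, ((((range k).biUnion fun j =>
        (A.image fun t => B t + (j : ℤ) • D t).image
          fun v => dot a v + (j : ZMod Q) * s i).card : ℕ) : ℝ) ≤ k * P := by
      intro i
      have h3 : ((((range k).biUnion fun j =>
        (A.image fun t => B t + (j : ℤ) • D t).image
          fun v => dot a v + (j : ZMod Q) * s i).card : ℕ) : ℝ) ≤
          ∑ j ∈ range k, (((A.image fun t => B t + (j : ℤ) • D t).image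
          fun v => dot a v + (j : ZMod Q) * s i).card : ℝ) := by
        exact_mod_cast card_biUnion_le
      refine h3.trans ((sum_le_sum fun j hj => h1 i j (mem_range.1 hj)).trans ?_)
      rw [sum_const, card_range, nsmul_eq_mul]
    have h4 : ((((univ : Finset (Fin κ)).biUnion (fun i => (range k).biUnion fun j =>
      (A.image fun t => B t + (j : ℤ) • D t).image
        fun v => dot a v + (j : ZMod Q) * s i)).card : ℕ) : ℝ) ≤ ∑ i : Fin κ, (k * P) := by
      refine le_trans ?_ (sum_le_sum fun i _ => h2 i)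
      exact_mod_cast card_biUnion_le
    refine h4.trans ?_
    rw [sum_const, card_univ, Fintype.card_fin, nsmul_eq_mul]
    rcases Nat.eq_zero_or_pos k with hk | hk
    · rw [hk]
      simp
    · have hP0 : 0 ≤ P := le_trans (Nat.cast_nonneg _) (hP 0 hk)
      exact mul_le_mul_of_nonneg_right hκ2 (by positivity)
  · intro h
    obtain ⟨i, hi⟩ := hs h
    rw [hΔ] at hi
    obtain ⟨t, ht, hte⟩ := mem_image.1 hi
    refine ⟨dot a (B t), fun j hj => ?_⟩
    refine mem_biUnion.2 ⟨i, mem_univ _, mem_biUnion.2 ⟨j, mem_range.2 hj, ?_⟩⟩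
    refine mem_image.2 ⟨_, mem_image_of_mem _ ht, ?_⟩
    rw [dot_smul, hte]
    ring

/-- From residues to digits. -/
lemma exists_digits {n Q k : ℕ} [hQ : Fact Q.Prime] (X : Finset (ZMod Q))
    (hX : ∀ h : ZMod Q, ∃ b : ZMod Q, ∀ j : ℕ, j < k → b + j * h ∈ X) :
    ∃ (A : (Fin n → ℤ) → Fin n → ℤ) (D : Finset (Fin n → ℤ)),
      AssouadVersion.Digits k Q A D ∧ D.card ≤ (k * X.card) ^ n := by
  classical
  have hQ0 : (0 : ℤ) < Q := by exact_mod_cast hQ.out.pos
  obtain ⟨D1, hD1⟩ : ∃ D1 : Finset ℤ, D1 = (Finset.Ico (0 : ℤ) ((k : ℤ) * (Q : ℤ))).filter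
    (fun z : ℤ => (z : ZMod Q) ∈ X) := ⟨_, rfl⟩
  have hD1c : D1.card ≤ k * X.card := by
    have hsub : D1 ⊆ (Finset.range k ×ˢ X).image
        (fun z : ℕ × ZMod Q => (Q : ℤ) * (z.1 : ℤ) + ((z.2.val : ℕ) : ℤ)) := by
      intro z hz
      rw [hD1] at hz
      obtain ⟨h1, h2⟩ := mem_filter.1 hz
      obtain ⟨h3, h4⟩ := Finset.mem_Ico.1 h1
      refine mem_image.2 ⟨((z / Q).toNat, (z : ZMod Q)), mem_product.2 ⟨?_, h2⟩, ?_⟩
      · have h5 : z / Q < k := Int.ediv_lt_of_lt_mul hQ0 h4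
        have h6 : 0 ≤ z / Q := Int.ediv_nonneg h3 hQ0.le
        exact Finset.mem_range.2 (by omega)
      · have h6 : 0 ≤ z / Q := Int.ediv_nonneg h3 hQ0.le
        have h7 : (((z : ZMod Q)).val : ℤ) = z % Q := ZMod.val_intCast z
        simp only
        rw [h7, Int.toNat_of_nonneg h6]
        exact Int.mul_ediv_add_emod z Q
    refine (card_le_card hsub).trans (card_image_le.trans ?_)
    rw [card_product, Finset.card_range]
  choose b hb using hX
  refine ⟨fun v i => ((b (v i : ZMod Q)).val : ℤ), Fintype.piFinset fun _ => D1, ?_, ?_⟩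
  · intro v hv j hj
    rw [Fintype.mem_piFinset]
    intro i
    obtain ⟨h1, h2⟩ := hv i
    simp only [Pi.add_apply, Pi.smul_apply, smul_eq_mul]
    have h3 : ((b (v i : ZMod Q)).val : ℤ) < Q := by exact_mod_cast ZMod.val_lt _
    have h4 : (0 : ℤ) ≤ ((b (v i : ZMod Q)).val : ℤ) := Int.natCast_nonneg _
    have hcast : ((((b (v i : ZMod Q)).val : ℤ) + (j : ℤ) * v i : ℤ) : ZMod Q) =
        b (v i : ZMod Q) + (j : ZMod Q) * (v i : ZMod Q) := by
      push_cast
      rw [ZMod.natCast_zmod_val]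
    rw [hD1, mem_filter, hcast, Finset.mem_Ico]
    refine ⟨⟨by positivity, ?_⟩, hb _ j hj⟩
    have hj' : (j : ℤ) + 1 ≤ k := by exact_mod_cast hj
    have h5 : (j : ℤ) * v i ≤ j * Q := mul_le_mul_of_nonneg_left h2.le (Int.natCast_nonneg _)
    nlinarith
  · rw [Fintype.card_piFinset, prod_const, Finset.card_univ, Fintype.card_fin]
    exact Nat.pow_le_pow_left hD1c n

end Pool.Agent.H22.DenseProg
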