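import Pool.Agent.H22.EntropyProg

/-!
# Certificates for the entropy criterion

A certificate is a list of triples `(b, d, m)`: the pair `(b, d)` has the probability `m / W`.
-/

set_option autoImplicit false

namespace Pool.Agent.H22.EntropyCert

open Finset Pool.Agent.H22.EntropyProg Pool.Agent.Results.MP_4b405e_nt

/-- the total weight -/
def tot (l : List (ℕ × ℕ × ℕ)) : ℕ := (l.map fun t => t.2.2).sum

/-- the weight of the fibre of `f` through `t` -/
def fib (l : List (ℕ × ℕ × ℕ)) (f : ℕ × ℕ × ℕ → ℕ) (t : ℕ × ℕ × ℕ) : ℕ :=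
  (l.map fun t' => if f t' = f t then t'.2.2 else 0).sum

/-- `∏ fib ^ (m * q)` -/
def prd (l : List (ℕ × ℕ × ℕ)) (f : ℕ × ℕ × ℕ → ℕ) (q : ℕ) : ℕ :=
  (l.map fun t => fib l f t ^ (t.2.2 * q)).prod

/-- the term number `j` -/
def term (j : ℕ) (t : ℕ × ℕ × ℕ) : ℕ := t.1 + j * t.2.1

/-- the difference -/
def diff (t : ℕ × ℕ × ℕ) : ℕ := t.2.1

lemma fib_pos {l : List (ℕ × ℕ × ℕ)} (hm : ∀ t ∈ l, 0 < t.2.2) (f : ℕ × ℕ × ℕ → ℕ)
    {t : ℕ × ℕ × ℕ} (ht : t ∈ l) : 0 < fib l f t := by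
  unfold fib
  apply List.sum_pos_iff_exists_pos_nat.2
  refine ⟨t.2.2, ?_, hm t ht⟩
  exact List.mem_map.2 ⟨t, ht, by simp⟩

lemma tot_pos {l : List (ℕ × ℕ × ℕ)} (hm : ∀ t ∈ l, 0 < t.2.2) (hl : l ≠ []) : 0 < tot l := by
  obtain ⟨t, ht⟩ := List.exists_mem_of_ne_nil l hl
  unfold tot
  exact List.sum_pos_iff_exists_pos_nat.2 ⟨t.2.2, List.mem_map.2 ⟨t, ht, rfl⟩, hm t ht⟩

/-- the entropy of `f` -/
lemma ent_eq {l : List (ℕ × ℕ × ℕ)} (hm : ∀ t ∈ l, 0 < t.2.2) (hl : l ≠ [])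
    (f : ℕ × ℕ × ℕ → ℕ) (q : ℕ) :
    (q : ℝ) * (tot l * ent (fun i : Fin l.length => ((l[i].2.2 : ℕ) : ℝ) / tot l)
      (fun i => ((f l[i] : ℕ) : ℤ))) = q * (tot l * Real.log (tot l)) - Real.log (prd l f q) := by
  classical
  have hW : (0 : ℝ) < tot l := by exact_mod_cast tot_pos hm hl
  have hmass : ∀ i : Fin l.length, mass (fun i : Fin l.length => ((l[i].2.2 : ℕ) : ℝ) / tot l)
      (fun i => ((f l[i] : ℕ) : ℤ)) i = (fib l f l[i] : ℝ) / tot l := by
    intro i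
    unfold mass
    simp only [Nat.cast_inj]
    rw [← sum_div, sum_filter]
    congr 1
    have h1 := Fin.sum_univ_fun_getElem l (fun t' => if f t' = f l[i] then t'.2.2 else 0)
    unfold fib
    rw [← h1]
    push_cast
    rfl
  have hlog : Real.log (prd l f q) = ∑ i : Fin l.length,
      (((l[i].2.2 : ℕ) : ℝ) * q) * Real.log (fib l f l[i]) := by
    unfold prd
    have h1 := Fin.prod_univ_fun_getElem l (fun t => fib l f t ^ (t.2.2 * q))
    rw [← h1]
    push_cast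
    rw [Real.log_prod]
    · apply sum_congr rfl
      intro i _
      rw [Real.log_pow]
      push_cast
      rfl
    · intro i _
      have := fib_pos hm f (t := l[i]) (List.getElem_mem _)
      have h2 : (0 : ℝ) < fib l f l[i] := by exact_mod_cast this
      exact (pow_pos h2 _).ne'
  have hsum : ∑ i : Fin l.length, ((l[i].2.2 : ℕ) : ℝ) = tot l := by
    have h1 := Fin.sum_univ_fun_getElem l (fun t => t.2.2)
    unfold tot
    rw [← h1]
    push_cast
    rfl
  rw [hlog]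
  unfold ent
  simp only [hmass]
  have h2 : ∀ i : Fin l.length, ((l[i].2.2 : ℕ) : ℝ) / tot l * Real.log ((fib l f l[i] : ℝ) / tot l) =
      (((l[i].2.2 : ℕ) : ℝ) * Real.log (fib l f l[i])) / tot l -
        Real.log (tot l) / tot l * ((l[i].2.2 : ℕ) : ℝ) := by
    intro i
    have h3 : (0 : ℝ) < fib l f l[i] := by
      exact_mod_cast fib_pos hm f (t := l[i]) (List.getElem_mem _)
    rw [Real.log_div h3.ne' hW.ne']
    ring
  rw [sum_congr rfl fun i _ => h2 i, sum_sub_distrib, ← sum_div, ← mul_sum, hsum]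
  have h4 : ∑ i : Fin l.length, (((l[i].2.2 : ℕ) : ℝ) * q) * Real.log (fib l f l[i]) =
      q * ∑ i : Fin l.length, ((l[i].2.2 : ℕ) : ℝ) * Real.log (fib l f l[i]) := by
    rw [mul_sum]
    exact sum_congr rfl fun i _ => by ring
  rw [h4]
  field_simp
  ring

/-- **Certificates.** -/
theorem exists_digits (l : List (ℕ × ℕ × ℕ)) {k u q : ℕ} (hk : 1 ≤ k) (hu : u ≤ q) (hq : 0 < q)
    (hl : l ≠ []) (hm : ∀ t ∈ l, 0 < t.2.2)
    (h0 : prd l diff 1 < tot l ^ tot l)
    (h : ∀ j < k, tot l ^ (tot l * (q - u)) * prd l diff u ≤ prd l (term j) q)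
    (n : ℕ) {s : ℝ} (hs : (u : ℝ) / q < s) :
    ∃ (N : ℕ) (A : (Fin n → ℤ) → Fin n → ℤ) (D : Finset (Fin n → ℤ)), 2 ≤ N ∧
      AssouadVersion.Digits k N A D ∧ Real.log D.card / Real.log N ≤ n * s := by
  classical
  have hW : (0 : ℝ) < tot l := by exact_mod_cast tot_pos hm hl
  have hqR : (0 : ℝ) < q := by exact_mod_cast hq
  have hprd : ∀ (f : ℕ × ℕ × ℕ → ℕ) (q : ℕ), (0 : ℝ) < prd l f q := by
    intro f q
    have : 0 < prd l f q := by
      unfold prd
      apply List.prod_pos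
      intro x hx
      obtain ⟨t, ht, rfl⟩ := List.mem_map.1 hx
      exact pow_pos (fib_pos hm f ht) _
    exact_mod_cast this
  have hsum : ∑ i : Fin l.length, ((l[i].2.2 : ℕ) : ℝ) / tot l = 1 := by
    rw [← sum_div, div_eq_one_iff_eq hW.ne']
    have h1 := Fin.sum_univ_fun_getElem l (fun t => t.2.2)
    unfold tot
    rw [← h1]
    push_cast
    rfl
  have hpos : ∀ i : Fin l.length, 0 < ((l[i].2.2 : ℕ) : ℝ) / tot l := by
    intro i
    have : 0 < l[i].2.2 := hm _ (List.getElem_mem _)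
    have h1 : (0 : ℝ) < ((l[i].2.2 : ℕ) : ℝ) := by exact_mod_cast this
    positivity
  have hd : 0 < ent (fun i : Fin l.length => ((l[i].2.2 : ℕ) : ℝ) / tot l)
      (fun i => ((diff l[i] : ℕ) : ℤ)) := by
    have h1 := ent_eq hm hl diff 1
    rw [Nat.cast_one, one_mul, one_mul] at h1
    have h2 : Real.log (prd l diff 1) < tot l * Real.log (tot l) := by
      rw [← Real.log_pow]
      apply Real.log_lt_log (hprd _ _)
      exact_mod_cast h0
    have h3 : 0 < tot l * ent (fun i : Fin l.length => ((l[i].2.2 : ℕ) : ℝ) / tot l)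
      (fun i => ((diff l[i] : ℕ) : ℤ)) := by linarith
    exact (mul_pos_iff_of_pos_left hW).1 h3
  refine EntropyProg.exists_digits hpos hsum (fun i => (l[i].1 : ℤ)) (fun i => (l[i].2.1 : ℤ)) hk
    (θ := (u : ℝ) / q) hd (fun j hj => ?_) n hs
  have hterm : (fun i : Fin l.length => ((l[i].1 : ℕ) : ℤ) + (j : ℤ) * ((l[i].2.1 : ℕ) : ℤ)) =
      fun i => ((term j l[i] : ℕ) : ℤ) := by
    funext i
    unfold term
    push_cast
    rfl
  rw [hterm]
  have e1 := ent_eq hm hl (term j) q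
  have e2 := ent_eq hm hl diff u
  have h1 := h j hj
  have h2 : Real.log (((tot l ^ (tot l * (q - u)) * prd l diff u : ℕ) : ℝ)) ≤
      Real.log (prd l (term j) q) := by
    apply Real.log_le_log
    · push_cast
      exact mul_pos (pow_pos hW _) (hprd _ _)
    · exact_mod_cast h1
  rw [Nat.cast_mul, Nat.cast_pow, Real.log_mul (pow_pos hW _).ne' (hprd _ _).ne', Real.log_pow,
    Nat.cast_mul, Nat.cast_sub hu] at h2
  change ent (fun i : Fin l.length => ((l[i].2.2 : ℕ) : ℝ) / tot l) (fun i => ((term j l[i] : ℕ) : ℤ)) ≤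
    (u : ℝ) / q * ent (fun i : Fin l.length => ((l[i].2.2 : ℕ) : ℝ) / tot l) (fun i => ((diff l[i] : ℕ) : ℤ))
  generalize ent (fun i : Fin l.length => ((l[i].2.2 : ℕ) : ℝ) / tot l) (fun i => ((term j l[i] : ℕ) : ℤ)) = E1
    at e1 ⊢
  generalize ent (fun i : Fin l.length => ((l[i].2.2 : ℕ) : ℝ) / tot l) (fun i => ((diff l[i] : ℕ) : ℤ)) = E2
    at e2 ⊢
  rw [div_mul_eq_mul_div, le_div_iff₀ hqR]
  have h3 : tot l * (E1 * q) ≤ tot l * (u * E2) := by nlinarith
  exact le_of_mul_le_mul_left h3 hW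

end Pool.Agent.H22.EntropyCert
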