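import Pool.Agent.H22.EntropyCert

/-!
# Pairs of random integers with small entropies of `X + j Y`

The entry `(b, d, m)` of a list stands for the value `(X, Y) = (b, d)` with the weight `m`.
-/

set_option autoImplicit false

namespace Pool.Agent.H22.EntropyLists

open Pool.Agent.H22.EntropyCert Pool.Agent.Results.MP_4b405e_nt

/-- the distribution for `k = 4` -/
def fourList : List (ℕ × ℕ × ℕ) :=
  [(60, 140, 98), (60, 114, 93), (48, 120, 71), (60, 146, 70), (48, 144, 65), (48, 152, 64),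
   (96, 104, 60), (96, 96, 55), (60, 138, 47), (60, 108, 46), (60, 116, 44), (12, 162, 44),
   (108, 92, 39), (108, 98, 38), (96, 128, 37), (96, 102, 35), (60, 122, 35), (12, 156, 30),
   (48, 126, 26), (12, 164, 25), (48, 150, 24), (0, 168, 23), (108, 90, 22), (60, 132, 19),
   (72, 110, 17), (112, 88, 15), (72, 134, 15), (12, 170, 15), (240, 56, 14), (252, 44, 13),
   (69, 137, 13), (57, 117, 12), (204, 66, 12), (24, 158, 12), (252, 50, 11), (69, 105, 10),
   (57, 141, 10), (76, 106, 9), (240, 48, 9), (204, 68, 9), (105, 93, 8), (144, 80, 8),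
   (21, 153, 8), (108, 84, 7), (69, 113, 7), (76, 130, 7), (204, 74, 7), (112, 94, 6),
   (76, 124, 6), (204, 60, 6), (0, 174, 6), (57, 149, 6), (112, 112, 5), (192, 72, 5),
   (216, 62, 5), (21, 161, 5), (0, 176, 5), (76, 100, 4), (120, 86, 4), (117, 89, 4),
   (105, 101, 4), (240, 54, 4), (69, 129, 4), (252, 42, 4), (9, 165, 4), (240, 24, 3),
   (252, 18, 3), (69, 111, 2), (121, 85, 2), (252, 20, 2), (252, 36, 2), (57, 135, 2),
   (213, 57, 2), (256, 40, 2), (57, 143, 2), (213, 65, 2), (192, 78, 2), (252, 12, 1),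
   (85, 97, 1), (105, 87, 1), (117, 81, 1), (288, 0, 1), (249, 21, 1), (264, 14, 1),
   (105, 95, 1), (148, 76, 1), (240, 30, 1), (240, 32, 1), (252, 26, 1), (288, 8, 1),
   (300, 2, 1), (105, 125, 1), (40, 142, 1), (220, 52, 1), (21, 159, 1), (85, 121, 1),
   (69, 131, 1), (220, 58, 1), (201, 69, 1), (249, 45, 1), (264, 38, 1), (105, 119, 1),
   (261, 41, 1), (112, 118, 1), (256, 46, 1), (9, 173, 1), (249, 53, 1), (12, 188, 1)]

lemma four_pos : ∀ t ∈ fourList, 0 < t.2.2 := by
  decide +kernel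

lemma four_diff : prd fourList diff 1 < tot fourList ^ tot fourList := by
  decide +kernel

lemma four_term : ∀ j < 4, tot fourList ^ (tot fourList * (500 - 309)) *
    prd fourList diff 309 ≤ prd fourList (term j) 500 := by
  decide +kernel

/-- the digits for `k = 4` -/
theorem four (n : ℕ) {s : ℝ} (hs : (0.618 : ℝ) < s) :
    ∃ (N : ℕ) (A : (Fin n → ℤ) → Fin n → ℤ) (D : Finset (Fin n → ℤ)), 2 ≤ N ∧
      AssouadVersion.Digits 4 N A D ∧ Real.log D.card / Real.log N ≤ n * s :=
  EntropyCert.exists_digits fourList (k := 4) (u := 309) (q := 500) (by norm_num) (by norm_num)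
    (by norm_num) (by simp [fourList]) four_pos four_diff four_term n
    (by norm_num at hs ⊢; exact hs)

/-- the distribution for `k = 5` -/
def fiveList : List (ℕ × ℕ × ℕ) :=
  [(108, 64, 106), (76, 72, 101), (72, 76, 93), (84, 70, 91), (112, 60, 67), (72, 100, 59),
   (76, 78, 58), (72, 82, 57), (120, 58, 52), (76, 96, 49), (180, 46, 40), (72, 74, 39),
   (120, 52, 39), (40, 108, 38), (112, 66, 35), (184, 42, 33), (84, 94, 27), (148, 54, 22),
   (184, 36, 22), (36, 112, 21), (192, 34, 21), (48, 106, 20), (40, 90, 19), (108, 62, 18),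
   (40, 84, 17), (108, 56, 16), (180, 38, 16), (180, 40, 16), (40, 114, 16), (96, 68, 15),
   (216, 28, 15), (112, 63, 13), (72, 98, 12), (76, 102, 12), (36, 88, 10), (108, 67, 10),
   (36, 110, 10), (76, 99, 10), (120, 61, 9), (76, 75, 8), (72, 79, 8), (84, 73, 7), (60, 86, 7),
   (76, 81, 7), (60, 104, 7), (168, 50, 7), (204, 32, 7), (36, 118, 7), (216, 10, 6),
   (4, 120, 6), (184, 45, 6), (72, 103, 6), (180, 22, 5), (108, 65, 5), (148, 48, 5),
   (84, 97, 5), (148, 30, 4), (184, 18, 4), (112, 69, 4), (220, 24, 4), (84, 80, 3),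
   (148, 51, 3), (4, 126, 3), (40, 111, 3), (180, 43, 3), (216, 26, 3), (72, 101, 3),
   (112, 87, 3), (108, 91, 3), (120, 55, 2), (220, 6, 2), (216, 20, 2), (184, 39, 2),
   (36, 115, 2), (48, 109, 2), (192, 37, 2), (40, 117, 2), (220, 27, 2), (180, 49, 2),
   (192, 44, 2), (76, 105, 2), (216, 2, 1), (220, 0, 1), (216, 4, 1), (204, 14, 1), (204, 16, 1),
   (0, 124, 1), (148, 57, 1), (216, 29, 1), (216, 31, 1)]

lemma five_pos : ∀ t ∈ fiveList, 0 < t.2.2 := by
  decide +kernel

lemma five_diff : prd fiveList diff 1 < tot fiveList ^ tot fiveList := by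
  decide +kernel

lemma five_term : ∀ j < 5, tot fiveList ^ (tot fiveList * (200 - 133)) *
    prd fiveList diff 133 ≤ prd fiveList (term j) 200 := by
  decide +kernel

/-- the digits for `k = 5` -/
theorem five (n : ℕ) {s : ℝ} (hs : (0.665 : ℝ) < s) :
    ∃ (N : ℕ) (A : (Fin n → ℤ) → Fin n → ℤ) (D : Finset (Fin n → ℤ)), 2 ≤ N ∧
      AssouadVersion.Digits 5 N A D ∧ Real.log D.card / Real.log N ≤ n * s :=
  EntropyCert.exists_digits fiveList (k := 5) (u := 133) (q := 200) (by norm_num) (by norm_num)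
    (by norm_num) (by simp [fiveList]) five_pos five_diff five_term n
    (by norm_num at hs ⊢; exact hs)

/-- the distribution for `k = 6` -/
def sixList : List (ℕ × ℕ × ℕ) :=
  [(95, 85, 53), (95, 79, 46), (140, 70, 41), (215, 55, 38), (80, 94, 33), (75, 89, 32),
   (75, 95, 31), (80, 100, 31), (120, 80, 30), (92, 88, 28), (120, 86, 28), (140, 76, 28),
   (87, 87, 27), (95, 91, 27), (135, 71, 27), (135, 75, 26), (72, 98, 25), (215, 49, 25),
   (140, 64, 24), (87, 93, 24), (135, 69, 24), (120, 74, 23), (75, 99, 23), (195, 65, 22),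
   (120, 90, 21), (87, 83, 20), (195, 59, 20), (75, 105, 19), (132, 78, 19), (215, 61, 19),
   (120, 84, 18), (255, 41, 18), (92, 82, 17), (47, 103, 16), (72, 92, 16), (35, 109, 15),
   (72, 102, 15), (135, 81, 15), (167, 73, 15), (207, 53, 15), (207, 63, 15), (240, 50, 15),
   (260, 40, 15), (72, 108, 14), (207, 57, 14), (255, 45, 14), (35, 115, 13), (80, 106, 13),
   (260, 46, 13), (132, 72, 12), (167, 67, 12), (212, 58, 12), (47, 97, 11), (60, 104, 11),
   (75, 101, 11), (180, 60, 11), (192, 68, 11), (240, 56, 11), (60, 110, 10), (192, 62, 10),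
   (255, 39, 10), (212, 52, 9), (27, 117, 8), (120, 96, 8), (255, 35, 8), (240, 44, 8),
   (215, 25, 7), (32, 118, 7), (180, 54, 7), (35, 139, 7), (260, 34, 7), (27, 107, 6),
   (215, 19, 6), (32, 112, 6), (260, 10, 6), (180, 66, 6), (35, 145, 6), (75, 131, 6),
   (95, 121, 6), (80, 130, 6), (255, 51, 6), (27, 113, 5), (240, 14, 5), (255, 9, 5),
   (255, 15, 5), (147, 77, 5), (207, 47, 5), (80, 124, 5), (260, 4, 4), (240, 20, 4),
   (27, 143, 4), (47, 133, 4), (87, 123, 4), (252, 48, 4), (15, 119, 3), (195, 29, 3),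
   (255, 5, 3), (227, 43, 3), (32, 142, 3), (27, 147, 3), (75, 125, 3), (75, 129, 3),
   (75, 135, 3), (0, 116, 2), (15, 111, 2), (167, 37, 2), (12, 122, 2), (207, 27, 2),
   (260, 16, 2), (252, 38, 2), (275, 31, 2), (80, 136, 2), (0, 114, 1), (180, 26, 1),
   (0, 120, 1), (180, 30, 1), (300, 0, 1), (252, 42, 1), (72, 138, 1)]

lemma six_pos : ∀ t ∈ sixList, 0 < t.2.2 := by
  decide +kernel

lemma six_diff : prd sixList diff 1 < tot sixList ^ tot sixList := by
  decide +kernel

lemma six_term : ∀ j < 6, tot sixList ^ (tot sixList * (10 - 7)) *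
    prd sixList diff 7 ≤ prd sixList (term j) 10 := by
  decide +kernel

/-- the digits for `k = 6` -/
theorem six (n : ℕ) {s : ℝ} (hs : (0.7 : ℝ) < s) :
    ∃ (N : ℕ) (A : (Fin n → ℤ) → Fin n → ℤ) (D : Finset (Fin n → ℤ)), 2 ≤ N ∧
      AssouadVersion.Digits 6 N A D ∧ Real.log D.card / Real.log N ≤ n * s :=
  EntropyCert.exists_digits sixList (k := 6) (u := 7) (q := 10) (by norm_num) (by norm_num)
    (by norm_num) (by simp [sixList]) six_pos six_diff six_term n
    (by norm_num at hs ⊢; exact hs)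

/-- the distribution for `k = 7` -/
def sevenList : List (ℕ × ℕ × ℕ) :=
  [(144, 105, 46), (240, 57, 45), (240, 54, 41), (48, 121, 39), (108, 106, 32), (234, 60, 32),
   (144, 78, 30), (144, 73, 29), (198, 64, 29), (204, 90, 29), (150, 99, 27), (144, 97, 26),
   (234, 55, 26), (54, 120, 25), (108, 109, 25), (198, 96, 25), (294, 48, 25), (102, 112, 24),
   (144, 102, 24), (144, 70, 23), (54, 115, 22), (108, 114, 22), (150, 72, 21), (48, 126, 21),
   (54, 123, 21), (240, 81, 21), (138, 76, 20), (204, 93, 20), (204, 66, 19), (138, 103, 19),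
   (234, 63, 19), (198, 91, 19), (204, 58, 18), (48, 129, 17), (288, 46, 16), (294, 40, 16),
   (300, 42, 16), (208, 89, 16), (138, 79, 15), (246, 51, 15), (48, 118, 14), (208, 86, 14),
   (294, 43, 14), (118, 104, 13), (234, 52, 13), (138, 111, 13), (204, 85, 13), (336, 33, 13),
   (234, 87, 13), (288, 49, 12), (198, 88, 12), (330, 36, 12), (330, 39, 12), (12, 130, 11),
   (138, 84, 11), (114, 108, 11), (60, 117, 10), (42, 127, 10), (150, 75, 10), (336, 25, 10),
   (108, 82, 9), (154, 95, 9), (228, 61, 9), (198, 67, 8), (276, 45, 8), (6, 136, 7),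
   (6, 144, 7), (208, 62, 7), (208, 65, 7), (294, 27, 7), (192, 94, 7), (336, 22, 7),
   (298, 44, 7), (342, 24, 7), (12, 133, 6), (6, 139, 6), (12, 138, 6), (64, 113, 6),
   (114, 100, 6), (172, 74, 6), (12, 157, 6), (244, 53, 6), (330, 28, 6), (64, 110, 5),
   (154, 68, 5), (12, 141, 5), (118, 107, 5), (228, 69, 5), (330, 31, 5), (336, 30, 5),
   (18, 124, 4), (0, 142, 4), (118, 83, 4), (154, 71, 4), (172, 98, 4), (300, 34, 4),
   (304, 38, 4), (342, 19, 4), (324, 37, 4), (118, 80, 3), (18, 132, 3), (0, 145, 3),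
   (42, 135, 3), (12, 154, 3), (54, 147, 3), (172, 101, 3), (262, 56, 3), (262, 59, 3),
   (244, 77, 3), (28, 122, 2), (262, 32, 2), (18, 156, 2), (262, 35, 2), (154, 92, 2),
   (348, 18, 2), (298, 47, 2), (378, 15, 2), (28, 125, 1), (16, 134, 1), (294, 0, 1),
   (82, 116, 1), (342, 16, 1), (304, 41, 1), (372, 21, 1)]

lemma seven_pos : ∀ t ∈ sevenList, 0 < t.2.2 := by
  decide +kernel

lemma seven_diff : prd sevenList diff 1 < tot sevenList ^ tot sevenList := by
  decide +kernel

lemma seven_term : ∀ j < 7, tot sevenList ^ (tot sevenList * (25 - 18)) *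
    prd sevenList diff 18 ≤ prd sevenList (term j) 25 := by
  decide +kernel

/-- the digits for `k = 7` -/
theorem seven (n : ℕ) {s : ℝ} (hs : (0.72 : ℝ) < s) :
    ∃ (N : ℕ) (A : (Fin n → ℤ) → Fin n → ℤ) (D : Finset (Fin n → ℤ)), 2 ≤ N ∧
      AssouadVersion.Digits 7 N A D ∧ Real.log D.card / Real.log N ≤ n * s :=
  EntropyCert.exists_digits sevenList (k := 7) (u := 18) (q := 25) (by norm_num) (by norm_num)
    (by norm_num) (by simp [sevenList]) seven_pos seven_diff seven_term n
    (by norm_num at hs ⊢; exact hs)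

end Pool.Agent.H22.EntropyLists
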