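import Pool.Agent.H22.EntropyWords
import Pool.Agent.H22.DenseProg

/-!
# Entropies of pairs of integers and digit sets with progressions

If `(X, Y)` is a pair of random integers with finitely many values and `H(X + j Y) ≤ θ H(Y)` for all
`j < k`, then for every `s > θ` there are digits for `k`-term progressions of exponent at most `s`.
-/

set_option autoImplicit false
set_option linter.unusedSectionVars false

namespace Pool.Agent.H22.EntropyProg

open Finset Filter Topology Pool.Agent.H22.EntropyWords Pool.Agent.Results.MP_4b405e_nt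

variable {σ : Type*} [Fintype σ] [DecidableEq σ]

/-- the mass of the fibre of `f` -/
noncomputable def mass (p : σ → ℝ) (f : σ → ℤ) (s : σ) : ℝ :=
  ∑ s' ∈ univ.filter (fun s' => f s' = f s), p s'

/-- the entropy of `f` for the distribution `p` -/
noncomputable def ent (p : σ → ℝ) (f : σ → ℤ) : ℝ := -∑ s, p s * Real.log (mass p f s)

lemma mass_pos {p : σ → ℝ} (hp : ∀ s, 0 < p s) (f : σ → ℤ) (s : σ) : 0 < mass p f s :=
  sum_pos (fun s' _ => hp s') ⟨s, by simp⟩

lemma mass_le_one {p : σ → ℝ} (hp : ∀ s, 0 < p s) (hp1 : ∑ s, p s = 1) (f : σ → ℤ) (s : σ) :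
    mass p f s ≤ 1 := by
  rw [← hp1]
  exact sum_le_sum_of_subset_of_nonneg (subset_univ _) fun s _ _ => (hp s).le

lemma ent_nonneg {p : σ → ℝ} (hp : ∀ s, 0 < p s) (hp1 : ∑ s, p s = 1) (f : σ → ℤ) :
    0 ≤ ent p f := by
  unfold ent
  rw [neg_nonneg]
  apply sum_nonpos
  intro s _
  exact mul_nonpos_of_nonneg_of_nonpos (hp s).le
    (Real.log_nonpos (mass_pos hp f s).le (mass_le_one hp hp1 f s))

/-- the number of the images from below -/
lemma card_image_ge {N : ℕ} (p : σ → ℝ) (hp : ∀ s, 0 < p s) (f : σ → ℤ)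
    (A : Finset (Fin N → σ)) {c : ℝ} (hA : ∀ w ∈ A, ∏ i, mass p f (w i) ≤ c) :
    ∑ w ∈ A, ∏ i, p (w i) ≤ c * (A.image (fun w i => f (w i))).card := by
  classical
  have h1 : ∑ w ∈ A, ∏ i, p (w i) = ∑ v ∈ A.image (fun w i => f (w i)),
      ∑ w ∈ A.filter (fun w => (fun i => f (w i)) = v), ∏ i, p (w i) :=
    (sum_fiberwise_of_maps_to (fun w hw => mem_image_of_mem _ hw) _).symm
  rw [h1]
  have h2 : ∀ v ∈ A.image (fun w i => f (w i)),
      ∑ w ∈ A.filter (fun w => (fun i => f (w i)) = v), ∏ i, p (w i) ≤ c := by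
    intro v hv
    obtain ⟨w, hw, rfl⟩ := mem_image.1 hv
    refine le_trans ?_ (hA w hw)
    unfold mass
    rw [prod_univ_sum]
    apply sum_le_sum_of_subset_of_nonneg
    · intro w' hw'
      obtain ⟨-, h4⟩ := mem_filter.1 hw'
      refine Fintype.mem_piFinset.2 fun i => mem_filter.2 ⟨mem_univ _, ?_⟩
      exact congrFun h4 i
    · intro w' _ _
      exact prod_nonneg fun i _ => (hp _).le
  refine (sum_le_sum h2).trans ?_
  rw [sum_const, nsmul_eq_mul, mul_comm]

/-- **The entropy criterion.** -/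
theorem exists_digits {p : σ → ℝ} (hp : ∀ s, 0 < p s) (hp1 : ∑ s, p s = 1) (b d : σ → ℤ)
    {k : ℕ} (hk : 1 ≤ k) {θ : ℝ} (hH : 0 < ent p d)
    (h : ∀ j : ℕ, j < k → ent p (fun s => b s + j * d s) ≤ θ * ent p d) (n : ℕ) {s : ℝ}
    (hs : θ < s) :
    ∃ (N : ℕ) (A : (Fin n → ℤ) → Fin n → ℤ) (D : Finset (Fin n → ℤ)), 2 ≤ N ∧
      AssouadVersion.Digits k N A D ∧ Real.log D.card / Real.log N ≤ n * s := by
  classical
  obtain ⟨Hd, hHd⟩ : ∃ Hd : ℝ, Hd = ent p d := ⟨_, rfl⟩
  rw [← hHd] at hH h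
  have hθ : 0 ≤ θ := by
    have h1 := (ent_nonneg hp hp1 _).trans (h 0 (by omega))
    by_contra hcon
    push Not at hcon
    nlinarith
  obtain ⟨c, hc⟩ : ∃ c : ℝ, c = (s - θ) * Hd / 2 := ⟨_, rfl⟩
  have hc0 : 0 < c := by
    rw [hc]
    have := mul_pos (sub_pos.2 hs) hH
    linarith
  have hs1 : 0 < 1 + s := by linarith
  obtain ⟨ε, hε⟩ : ∃ ε : ℝ, ε = c / (1 + s) := ⟨_, rfl⟩
  have hε0 : 0 < ε := by rw [hε]; positivity
  have hε1 : (1 + s) * ε = c := by
    rw [hε]
    field_simp
  have hεH : 0 < Hd - ε := by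
    have h1 : ε < Hd := by
      rw [hε, div_lt_iff₀ hs1, hc]
      nlinarith
    linarith
  -- the tests
  obtain ⟨X, hX⟩ : ∃ X : Option (Fin k) → σ → ℝ, X = fun o s' => match o with
      | none => Real.log (mass p d s') + (Hd - ε)
      | some j => -Real.log (mass p (fun s => b s + (j : ℕ) * d s) s') - (θ * Hd + ε) := ⟨_, rfl⟩
  have hXm : ∀ o, ∑ s', p s' * X o s' < 0 := by
    intro o
    rw [hX]
    cases o with
    | none =>
      simp only [mul_add, sum_add_distrib]
      rw [← sum_mul, hp1, one_mul]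
      have h1 : ∑ s', p s' * Real.log (mass p d s') = -Hd := by rw [hHd]; unfold ent; ring
      rw [h1]
      linarith
    | some j =>
      simp only [mul_sub, sum_sub_distrib]
      rw [← sum_mul, hp1, one_mul]
      have h1 : ∑ s', p s' * -Real.log (mass p (fun s => b s + (j : ℕ) * d s) s') =
          ent p (fun s => b s + (j : ℕ) * d s) := by
        unfold ent
        rw [← sum_neg_distrib]
        exact sum_congr rfl fun s _ => by ring
      rw [h1]
      have h2 := h j j.2
      linarith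
  obtain ⟨N₀, hN₀⟩ := typical p (fun s => (hp s).le) hp1 X hXm
  -- parameters
  obtain ⟨L, hL⟩ : ∃ L : ℕ, ∀ s', |d s'| ≤ (L : ℤ) := by
    refine ⟨∑ s', (d s').natAbs, fun s' => ?_⟩
    have h1 : (d s').natAbs ≤ ∑ s', (d s').natAbs :=
      single_le_sum (f := fun s' => (d s').natAbs) (fun _ _ => Nat.zero_le _) (mem_univ s')
    rw [Int.abs_eq_natAbs]
    exact_mod_cast h1
  obtain ⟨r, hr⟩ : ∃ r : ℕ, r = Fintype.card σ := ⟨_, rfl⟩
  have hσ : Nonempty σ := by
    by_contra hcon
    rw [not_nonempty_iff] at hcon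
    rw [univ_eq_empty, sum_empty] at hp1
    norm_num at hp1
  have hr1 : 1 ≤ r := by rw [hr]; exact Fintype.card_pos
  have hlogr : 0 ≤ Real.log r := Real.log_natCast_nonneg r
  have hlog4 : 0 ≤ Real.log 4 := Real.log_nonneg (by norm_num)
  obtain ⟨C, hC⟩ : ∃ C : ℝ, C = (k : ℝ) ^ 2 * (8 * Real.log 4 + 8 * Real.log r + 1) := ⟨_, rfl⟩
  have hkR : (1 : ℝ) ≤ k := by exact_mod_cast hk
  have hC0 : 0 < C := by
    rw [hC]
    positivity
  have hr' : |Real.exp (-c)| < 1 := by
    rw [abs_of_pos (Real.exp_pos _), Real.exp_lt_one_iff]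
    linarith
  have hlim := tendsto_pow_const_mul_const_pow_of_abs_lt_one 1 hr'
  have hev := hlim.eventually (gt_mem_nhds (show (0 : ℝ) < 1 / C by positivity))
  have hlim2 := tendsto_pow_atTop_atTop_of_one_lt (Real.one_lt_exp_iff.2 hεH)
  obtain ⟨N₁, hN₁⟩ := eventually_atTop.1 (hev.and
    (hlim2.eventually (eventually_ge_atTop (2 * ((L : ℝ) + 1)))))
  obtain ⟨N, hN⟩ : ∃ N : ℕ, N = max (max N₀ N₁) 1 := ⟨_, rfl⟩
  have hN1 : 1 ≤ N := by rw [hN]; exact le_max_right _ _
  have hNa : N₀ ≤ N := by rw [hN]; exact (le_max_left _ _).trans (le_max_left _ _)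
  have hNb : N₁ ≤ N := by rw [hN]; exact (le_max_right _ _).trans (le_max_left _ _)
  have hhalf := hN₀ N hNa
  obtain ⟨h1, h2⟩ := hN₁ N hNb
  have hNR : (1 : ℝ) ≤ N := by exact_mod_cast hN1
  rw [← Real.exp_nat_mul] at h2
  obtain ⟨G, hG⟩ : ∃ G : Finset (Fin N → σ), G = univ.filter (fun w : Fin N → σ =>
    ∀ j, ∑ i, X j (w i) < 0) := ⟨_, rfl⟩
  rw [← hG] at hhalf
  -- the differences
  have hGd : ∀ w ∈ G, ∏ i, mass p d (w i) ≤ Real.exp (-(N * (Hd - ε))) := by
    intro w hw
    rw [hG] at hw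
    have h3 := (mem_filter.1 hw).2 none
    rw [hX] at h3
    simp only [sum_add_distrib, sum_const, card_univ, Fintype.card_fin, nsmul_eq_mul] at h3
    have h4 : ∏ i, mass p d (w i) = Real.exp (∑ i, Real.log (mass p d (w i))) := by
      rw [Real.exp_sum]
      exact prod_congr rfl fun i _ => (Real.exp_log (mass_pos hp d _)).symm
    rw [h4]
    apply Real.exp_le_exp.2
    linarith
  have hdc := card_image_ge p hp d G hGd
  have hcard : Real.exp (N * (Hd - ε)) ≤ 2 * (G.image (fun w i => d (w i))).card := by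
    have h3 : 1 / 2 ≤ Real.exp (-(N * (Hd - ε))) * (G.image (fun w i => d (w i))).card :=
      hhalf.trans hdc
    rw [Real.exp_neg, inv_mul_eq_div, le_div_iff₀ (Real.exp_pos _)] at h3
    linarith
  -- the projections
  have hproj : ∀ j : ℕ, j < k → ((G.image (fun w i => b (w i) + j * d (w i))).card : ℝ) ≤
      Real.exp (N * (θ * Hd + ε)) := by
    intro j hj
    have h3 : ∀ w ∈ G, Real.exp (-(N * (θ * Hd + ε))) ≤
        ∏ i, mass p (fun s => b s + j * d s) (w i) := by
      intro w hw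
      rw [hG] at hw
      have h4 := (mem_filter.1 hw).2 (some ⟨j, hj⟩)
      rw [hX] at h4
      simp only [sum_sub_distrib, sum_const, card_univ, Fintype.card_fin, nsmul_eq_mul,
        sum_neg_distrib] at h4
      have h5 : ∏ i, mass p (fun s => b s + j * d s) (w i) =
          Real.exp (∑ i, Real.log (mass p (fun s => b s + j * d s) (w i))) := by
        rw [Real.exp_sum]
        exact prod_congr rfl fun i _ => (Real.exp_log (mass_pos hp _ _)).symm
      rw [h5]
      apply Real.exp_le_exp.2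
      linarith
    have h4 := card_image_words p (fun s => (hp s).le) hp1 (fun s => b s + j * d s)
      (mass p (fun s => b s + j * d s)) (fun s => rfl) G h3
    rw [Real.exp_neg, inv_mul_eq_div, div_le_one (Real.exp_pos _)] at h4
    exact h4
  -- representatives
  obtain ⟨T, hTG, hTinj, hTimg⟩ : ∃ T ⊆ G, (∀ t ∈ T, ∀ t' ∈ T,
      (fun i => d (t i)) = (fun i => d (t' i)) → t = t') ∧
      T.card = (G.image (fun w i => d (w i))).card := by
    choose! g hg using fun (v : Fin N → ℤ) (hv : v ∈ G.image (fun w i => d (w i))) =>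
      mem_image.1 hv
    refine ⟨(G.image (fun w i => d (w i))).image g, ?_, ?_, ?_⟩
    · intro t ht
      obtain ⟨v, hv, rfl⟩ := mem_image.1 ht
      exact (hg v hv).1
    · intro t ht t' ht' hh
      obtain ⟨v, hv, rfl⟩ := mem_image.1 ht
      obtain ⟨v', hv', rfl⟩ := mem_image.1 ht'
      have e1 := (hg v hv).2
      have e2 := (hg v' hv').2
      rw [← e1, ← e2, hh]
    · apply card_image_of_injOn
      intro v hv v' hv' hh
      have e1 := (hg v (mem_coe.1 hv)).2
      have e2 := (hg v' (mem_coe.1 hv')).2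
      rw [← e1, ← e2]
      exact congrArg (fun w i => d (w i)) hh
  rw [← hTimg] at hcard
  have hL2 : (L : ℝ) + 1 ≤ T.card := by linarith
  have hL3 : L + 1 ≤ T.card := by exact_mod_cast hL2
  obtain ⟨Q, hQp, hQ1, hQ2, Y, hYc, hY⟩ := DenseProg.exists_mod k T (fun w i => b (w i))
    (fun w i => d (w i)) hTinj (L := L) (fun t _ i => hL _) (by omega) (by omega)
    (P := Real.exp (N * (θ * Hd + ε))) (by
      intro j hj
      refine le_trans ?_ (hproj j hj)
      have h3 : (T.image fun w => (fun i => b (w i)) + (j : ℤ) • (fun i => d (w i))) ⊆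
          (G.image (fun w i => b (w i) + j * d (w i))) := by
        intro v hv
        obtain ⟨w, hw, rfl⟩ := mem_image.1 hv
        refine mem_image.2 ⟨w, hTG hw, ?_⟩
        funext i
        simp only [Pi.add_apply, Pi.smul_apply, smul_eq_mul]
      exact_mod_cast card_le_card h3)
  have hF : Fact Q.Prime := ⟨hQp⟩
  obtain ⟨A', D, hD, hDc⟩ := DenseProg.exists_digits (n := n) Y hY
  refine ⟨Q, A', D, hQp.two_le, hD, ?_⟩
  have hQ0 : (0 : ℝ) < Q := by exact_mod_cast hQp.pos
  have hlogQ : 0 < Real.log Q := Real.log_pos (by exact_mod_cast hQp.one_lt)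
  -- bounds for `log Q`
  have hQlow : N * (Hd - ε) ≤ Real.log Q := by
    rw [Real.le_log_iff_exp_le hQ0]
    refine hcard.trans ?_
    exact_mod_cast hQ1.le
  have hQup : Real.log Q ≤ Real.log 4 + N * Real.log r := by
    have e1 : T.card ≤ r ^ N := by
      have := card_le_univ T
      rwa [Fintype.card_fun, Fintype.card_fin, ← hr] at this
    have e2 : (Q : ℝ) ≤ 4 * (r : ℝ) ^ N := by
      exact_mod_cast hQ2.trans (Nat.mul_le_mul_left _ e1)
    have e3 := Real.log_le_log hQ0 e2
    have hr0 : (0 : ℝ) < r := by exact_mod_cast hr1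
    rwa [Real.log_mul (by norm_num) (by positivity), Real.log_pow] at e3
  have hfac : (k : ℝ) ^ 2 * (8 * Real.log Q + 1) ≤ Real.exp (N * c) := by
    have e1 : (k : ℝ) ^ 2 * (8 * Real.log Q + 1) ≤ C * N := by
      rw [hC, mul_assoc]
      apply mul_le_mul_of_nonneg_left _ (by positivity)
      nlinarith
    have e2 : C * N ≤ Real.exp (N * c) := by
      rw [pow_one, ← Real.exp_nat_mul, mul_neg, Real.exp_neg, ← div_eq_mul_inv,
        div_lt_div_iff₀ (Real.exp_pos _) hC0, one_mul] at h1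
      linarith
    linarith
  have hkX : (k * Y.card : ℝ) ≤ Real.exp (N * s * (Hd - ε)) := by
    have e1 : (k * Y.card : ℝ) ≤ (k : ℝ) ^ 2 * (8 * Real.log Q + 1) *
        Real.exp (N * (θ * Hd + ε)) := by
      calc (k * Y.card : ℝ) ≤ k * ((8 * Real.log Q + 1) * (k * Real.exp (N * (θ * Hd + ε)))) :=
            mul_le_mul_of_nonneg_left hYc (by positivity)
        _ = _ := by ring
    refine e1.trans ((mul_le_mul_of_nonneg_right hfac (Real.exp_pos _).le).trans ?_)
    rw [← Real.exp_add]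
    apply Real.exp_le_exp.2
    have e2 : s * (Hd - ε) = c + (θ * Hd + ε) := by
      have : s * (Hd - ε) = (s - θ) * Hd / 2 + (s - θ) * Hd / 2 + θ * Hd - (1 + s) * ε + ε := by
        ring
      rw [this, hε1, ← hc]
      ring
    rw [mul_assoc, e2]
    linarith
  rw [div_le_iff₀ hlogQ]
  have hne := AssouadVersion.nonempty_of_digits hk hQp.two_le hD
  have hD0 : (0 : ℝ) < D.card := by exact_mod_cast card_pos.2 hne
  have h7 : (D.card : ℝ) ≤ Real.exp (N * s * (Hd - ε)) ^ n := by
    have : (D.card : ℝ) ≤ (k * Y.card : ℝ) ^ n := by exact_mod_cast hDc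
    exact this.trans (pow_le_pow_left₀ (by positivity) hkX n)
  have h8 := Real.log_le_log hD0 h7
  rw [Real.log_pow, Real.log_exp] at h8
  refine h8.trans ?_
  have h9 : (n : ℝ) * s * Real.log Q = n * (s * Real.log Q) := by ring
  rw [h9]
  apply mul_le_mul_of_nonneg_left _ (Nat.cast_nonneg n)
  have hs0 : 0 ≤ s := hθ.trans hs.le
  calc N * s * (Hd - ε) = s * (N * (Hd - ε)) := by ring
    _ ≤ s * Real.log Q := mul_le_mul_of_nonneg_left hQlow hs0

end Pool.Agent.H22.EntropyProg
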