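import Mathlib

/-!
# Typical words for a distribution on a finite set
-/

set_option autoImplicit false
set_option linter.unusedSectionVars false

namespace Pool.Agent.H22.EntropyWords

open Finset Filter Topology

variable {σ : Type*} [Fintype σ] [DecidableEq σ]

lemma chernoff (p X : σ → ℝ) (hp : ∀ s, 0 ≤ p s) (hp1 : ∑ s, p s = 1)
    (hX : ∑ s, p s * X s < 0) :
    ∃ t : ℝ, 0 < t ∧ ∑ s, p s * Real.exp (t * X s) < 1 := by
  obtain ⟨C, hC⟩ : ∃ C : ℝ, C = 1 + ∑ s, |X s| := ⟨_, rfl⟩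
  obtain ⟨e, he⟩ : ∃ e : ℝ, e = -∑ s, p s * X s := ⟨_, rfl⟩
  have hC1 : 1 ≤ C := by
    rw [hC]
    have : 0 ≤ ∑ s, |X s| := sum_nonneg fun s _ => abs_nonneg _
    linarith
  have hXC : ∀ s, |X s| ≤ C := by
    intro s
    have : |X s| ≤ ∑ s, |X s| := single_le_sum (f := fun s => |X s|) (fun s _ => abs_nonneg _)
      (mem_univ s)
    rw [hC]
    linarith
  have he0 : 0 < e := by rw [he]; linarith
  have heC : e ≤ C := by
    have h1 : ∑ s, p s * (-X s) ≤ ∑ s, p s * C := by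
      apply sum_le_sum
      intro s _
      exact mul_le_mul_of_nonneg_left ((neg_le_abs _).trans (hXC s)) (hp s)
    rw [← sum_mul, hp1, one_mul] at h1
    have h2 : ∑ s, p s * (-X s) = e := by
      rw [he, ← sum_neg_distrib]
      exact sum_congr rfl fun s _ => by ring
    linarith
  obtain ⟨t, ht⟩ : ∃ t : ℝ, t = e / (2 * C ^ 2) := ⟨_, rfl⟩
  have hC0 : 0 < C := by linarith
  have ht0 : 0 < t := by rw [ht]; positivity
  have htC : t * C ≤ 1 := by
    rw [ht, div_mul_eq_mul_div, div_le_one (by positivity)]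
    nlinarith
  have htC2 : t * C ^ 2 = e / 2 := by
    rw [ht]
    field_simp
  refine ⟨t, ht0, ?_⟩
  have h1 : ∀ s, Real.exp (t * X s) ≤ 1 + t * X s + t ^ 2 * C ^ 2 := by
    intro s
    have h2 : |t * X s| ≤ 1 := by
      rw [abs_mul, abs_of_pos ht0]
      exact (mul_le_mul_of_nonneg_left (hXC s) ht0.le).trans htC
    have h3 := (abs_le.1 (Real.abs_exp_sub_one_sub_id_le h2)).2
    have h4 : (t * X s) ^ 2 ≤ t ^ 2 * C ^ 2 := by
      rw [mul_pow]
      apply mul_le_mul_of_nonneg_left _ (by positivity)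
      rw [← sq_abs (X s)]
      exact pow_le_pow_left₀ (abs_nonneg _) (hXC s) 2
    linarith
  calc ∑ s, p s * Real.exp (t * X s)
      ≤ ∑ s, p s * (1 + t * X s + t ^ 2 * C ^ 2) :=
        sum_le_sum fun s _ => mul_le_mul_of_nonneg_left (h1 s) (hp s)
    _ = ∑ s, (p s + t * (p s * X s) + t ^ 2 * C ^ 2 * p s) :=
        sum_congr rfl fun s _ => by ring
    _ = 1 - t * e + t * (t * C ^ 2) := by
        rw [sum_add_distrib, sum_add_distrib, ← mul_sum, ← mul_sum, hp1, he]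
        ring
    _ < 1 := by
        rw [htC2]
        nlinarith

/-- the words with a large sum -/
lemma words_le (p X : σ → ℝ) (hp : ∀ s, 0 ≤ p s) {t : ℝ} (ht : 0 < t) (N : ℕ) :
    ∑ w ∈ univ.filter (fun w : Fin N → σ => 0 ≤ ∑ i, X (w i)), ∏ i, p (w i) ≤
      (∑ s, p s * Real.exp (t * X s)) ^ N := by
  rw [Fintype.sum_pow, sum_filter]
  apply sum_le_sum
  intro w _
  have h0 : 0 ≤ ∏ i, p (w i) := prod_nonneg fun i _ => hp _
  rw [prod_mul_distrib, ← Real.exp_sum, ← mul_sum]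
  split_ifs with h
  · have h1 : 1 ≤ Real.exp (t * ∑ i, X (w i)) := Real.one_le_exp (by positivity)
    nlinarith
  · exact mul_nonneg h0 (Real.exp_pos _).le

/-- most words are typical -/
theorem typical {J : Type*} [Fintype J] (p : σ → ℝ) (hp : ∀ s, 0 ≤ p s)
    (hp1 : ∑ s, p s = 1) (X : J → σ → ℝ) (hX : ∀ j, ∑ s, p s * X j s < 0) :
    ∃ N₀ : ℕ, ∀ N : ℕ, N₀ ≤ N →
      1 / 2 ≤ ∑ w ∈ univ.filter (fun w : Fin N → σ => ∀ j, ∑ i, X j (w i) < 0), ∏ i, p (w i) := by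
  classical
  choose t ht0 ht using fun j => chernoff p (X j) hp hp1 (hX j)
  obtain ⟨ρ, hρ⟩ : ∃ ρ : J → ℝ, ρ = fun j => ∑ s, p s * Real.exp (t j * X j s) := ⟨_, rfl⟩
  have hρ0 : ∀ j, 0 ≤ ρ j := fun j => by
    rw [hρ]
    exact sum_nonneg fun s _ => mul_nonneg (hp s) (Real.exp_pos _).le
  have hρ1 : ∀ j, ρ j < 1 := fun j => by
    rw [hρ]
    exact ht j
  have hlim : Tendsto (fun N : ℕ => ∑ j, ρ j ^ N) atTop (𝓝 (∑ _j : J, (0 : ℝ))) :=
    tendsto_finsetSum _ fun j _ => tendsto_pow_atTop_nhds_zero_of_lt_one (hρ0 j) (hρ1 j)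
  rw [sum_const_zero] at hlim
  obtain ⟨N₀, hN₀⟩ := eventually_atTop.1 (hlim.eventually (gt_mem_nhds (show (0 : ℝ) < 1 / 2 by
    norm_num)))
  refine ⟨N₀, fun N hN => ?_⟩
  have h1 := hN₀ N hN
  have h2 : (1 : ℝ) = ∑ w : Fin N → σ, ∏ i, p (w i) := by
    rw [← Fintype.sum_pow, hp1, one_pow]
  have h3 : ∀ w : Fin N → σ, ∏ i, p (w i) ≤
      (if (∀ j, ∑ i, X j (w i) < 0) then ∏ i, p (w i) else 0) +
        ∑ j, (if 0 ≤ ∑ i, X j (w i) then ∏ i, p (w i) else 0) := by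
    intro w
    have h0 : 0 ≤ ∏ i, p (w i) := prod_nonneg fun i _ => hp _
    have h4 : ∀ j, 0 ≤ (if 0 ≤ ∑ i, X j (w i) then ∏ i, p (w i) else 0) := by
      intro j
      split_ifs
      · exact h0
      · exact le_rfl
    by_cases h : ∀ j, ∑ i, X j (w i) < 0
    · rw [if_pos h]
      have := sum_nonneg fun j (_ : j ∈ (univ : Finset J)) => h4 j
      linarith
    · rw [if_neg h, zero_add]
      push Not at h
      obtain ⟨j, hj⟩ := h
      have h5 := single_le_sum (f := fun j => if 0 ≤ ∑ i, X j (w i) then ∏ i, p (w i) else 0)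
        (fun j _ => h4 j) (mem_univ j)
      simp only [if_pos hj] at h5
      exact h5
  have h4 : (1 : ℝ) ≤ ∑ w ∈ univ.filter (fun w : Fin N → σ => ∀ j, ∑ i, X j (w i) < 0),
      ∏ i, p (w i) + ∑ j, ρ j ^ N := by
    rw [h2]
    refine (sum_le_sum fun w _ => h3 w).trans ?_
    rw [sum_add_distrib, sum_comm, sum_filter]
    apply add_le_add le_rfl
    apply sum_le_sum
    intro j _
    rw [← sum_filter, hρ]
    exact words_le p (X j) hp (ht0 j) N
  linarith

/-- The number of the images of the words with large probability. -/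
lemma card_image_words {N : ℕ} (p : σ → ℝ) (hp : ∀ s, 0 ≤ p s) (hp1 : ∑ s, p s = 1)
    (f : σ → ℤ) (q : σ → ℝ) (hq : ∀ s, q s = ∑ s' ∈ univ.filter (fun s' => f s' = f s), p s')
    (A : Finset (Fin N → σ)) {c : ℝ} (hA : ∀ w ∈ A, c ≤ ∏ i, q (w i)) :
    c * (A.image (fun w i => f (w i))).card ≤ 1 := by
  classical
  obtain ⟨Q, hQ⟩ : ∃ Q : ℤ → ℝ, Q = fun v => ∑ s' ∈ univ.filter (fun s' => f s' = v), p s' :=
    ⟨_, rfl⟩
  have hQ0 : ∀ v, 0 ≤ Q v := fun v => by
    rw [hQ]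
    exact sum_nonneg fun s _ => hp s
  have hqQ : ∀ s, q s = Q (f s) := fun s => by rw [hq s, hQ]
  have h1 : ∑ v ∈ univ.image f, Q v = 1 := by
    rw [← hp1, hQ]
    exact sum_fiberwise_of_maps_to (fun s _ => mem_image_of_mem f (mem_univ s)) p
  have h2 : ∑ v ∈ Fintype.piFinset (fun _ : Fin N => univ.image f), ∏ i, Q (v i) = 1 := by
    rw [← prod_univ_sum, prod_const, h1, one_pow]
  have h3 : ∑ v ∈ A.image (fun w i => f (w i)), ∏ i, Q (v i) ≤ 1 := by
    rw [← h2]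
    apply sum_le_sum_of_subset_of_nonneg
    · intro v hv
      obtain ⟨w, -, rfl⟩ := mem_image.1 hv
      exact Fintype.mem_piFinset.2 fun i => mem_image_of_mem f (mem_univ _)
    · intro v _ _
      exact prod_nonneg fun i _ => hQ0 _
  have h4 : ∑ v ∈ A.image (fun w i => f (w i)), c ≤
      ∑ v ∈ A.image (fun w i => f (w i)), ∏ i, Q (v i) := by
    apply sum_le_sum
    intro v hv
    obtain ⟨w, hw, rfl⟩ := mem_image.1 hv
    refine (hA w hw).trans (le_of_eq ?_)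
    exact prod_congr rfl fun i _ => hqQ _
  rw [sum_const, nsmul_eq_mul] at h4
  linarith

end Pool.Agent.H22.EntropyWords
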