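import Mathlib

/-!
Homomorphisms from torsion-free groups to the integers which are injective on a finite set.
-/

set_option autoImplicit false

namespace Pool.Agent.H22.Hom

open Finset

/-- Every finite set of integer vectors embeds linearly into `ℤ`. -/
lemma exists_hom {ι : Type*} [Fintype ι] (S : Finset (ι → ℤ)) :
    ∃ φ : (ι → ℤ) →+ ℤ, Set.InjOn φ S := by
  classical
  let e := Fintype.equivFin ι
  let P : (ι → ℤ) → Polynomial ℤ := fun u =>
    ∑ i, Polynomial.C (u i) * Polynomial.X ^ (e i : ℕ)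
  have hcoef : ∀ u i, (P u).coeff (e i : ℕ) = u i := by
    intro u i
    simp only [P, Polynomial.finsetSum_coeff, Polynomial.coeff_C_mul, Polynomial.coeff_X_pow]
    rw [Finset.sum_eq_single i]
    · simp
    · intro j _ hj
      have : (e i : ℕ) ≠ (e j : ℕ) := fun h => hj (e.injective (Fin.ext h)).symm
      simp [this]
    · simp
  have hP : ∀ u, u ≠ 0 → P u ≠ 0 := by
    intro u hu h
    apply hu
    funext i
    have := hcoef u i
    rw [h] at this
    simpa using this.symm
  have hprod : ∏ z ∈ (S ×ˢ S).filter (fun z => z.1 ≠ z.2), P (z.1 - z.2) ≠ 0 := by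
    rw [prod_ne_zero_iff]
    intro z hz
    exact hP _ (sub_ne_zero.2 (mem_filter.1 hz).2)
  obtain ⟨x, hx⟩ : ∃ x : ℤ, (∏ z ∈ (S ×ˢ S).filter (fun z => z.1 ≠ z.2), P (z.1 - z.2)).eval x ≠ 0 := by
    by_contra hcon
    push Not at hcon
    exact hprod (Polynomial.funext (by simpa using hcon))
  refine ⟨⟨⟨fun u => ∑ i, u i * x ^ (e i : ℕ), by simp⟩, ?_⟩, ?_⟩
  · intro u v
    simp only [Pi.add_apply, add_mul, sum_add_distrib]
  · intro u hu v hv h
    by_contra hne
    apply hx
    rw [Polynomial.eval_prod]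
    apply prod_eq_zero (i := (u, v)) (mem_filter.2 ⟨mem_product.2 ⟨hu, hv⟩, hne⟩)
    have h' : ∑ i, u i * x ^ (e i : ℕ) = ∑ i, v i * x ^ (e i : ℕ) := h
    simp only [P, Polynomial.eval_finsetSum, Polynomial.eval_mul, Polynomial.eval_C,
      Polynomial.eval_pow, Polynomial.eval_X, Pi.sub_apply, sub_mul, sum_sub_distrib, h', sub_self]

/-- Every finite subset of a finitely generated torsion-free group embeds into `ℤ` by a
homomorphism. -/
lemma exists_hom_fg {H : Type*} [AddCommGroup H] [IsAddTorsionFree H] [hfg : AddGroup.FG H]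
    (T : Finset H) : ∃ φ : H →+ ℤ, Set.InjOn φ T := by
  classical
  have : Module.Finite ℤ H := Module.Finite.iff_addGroup_fg.2 hfg
  have : Module.Free ℤ H := inferInstance
  let b := Module.finBasis ℤ H
  obtain ⟨φ, hφ⟩ := exists_hom (T.image b.equivFun)
  refine ⟨φ.comp b.equivFun.toLinearMap.toAddMonoidHom, ?_⟩
  intro x hx y hy h
  have h1 := hφ (mem_coe.2 (mem_image_of_mem _ hx)) (mem_coe.2 (mem_image_of_mem _ hy)) h
  exact b.equivFun.injective h1

/-- The same for the subgroup generated by a finite subset of a torsion-free group. -/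
lemma exists_hom_closure {V : Type*} [AddCommGroup V] [IsAddTorsionFree V] (F : Set V)
    (hF : F.Finite) (T : Finset (AddSubgroup.closure F)) :
    ∃ φ : AddSubgroup.closure F →+ ℤ, Set.InjOn φ T := by
  have h1 : (AddSubgroup.closure F).FG := ⟨hF.toFinset, by rw [Set.Finite.coe_toFinset]⟩
  have : AddGroup.FG (AddSubgroup.closure F) := (AddGroup.fg_iff_addSubgroup_fg _).2 h1
  exact exists_hom_fg T

end Pool.Agent.H22.Hom
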