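import Pool.Agent.H22.ParabDigits

/-!
# The asymptotic form of the bound from the parabola
-/

set_option autoImplicit false

namespace Pool.Agent.H22.ParabAsym

open Finset Filter Topology Pool.Agent.H22.GH.Parab Pool.Agent.Results.MP_4b405e_nt

/-- the number of primes -/
lemma many_primes {y : ℕ} (hy : 16 ≤ y) :
    (y : ℝ) / 2 ≤ (Nat.primesLE y).card * Real.log y := by
  have hyr : (16 : ℝ) ≤ y := by exact_mod_cast hy
  have hly : 0 < Real.log y := Real.log_pos (by linarith)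
  have h1 := Chebyshev.pi_ge y
  rw [div_le_iff₀ hly] at h1
  have h2 : (Nat.primesLE y).card = Nat.primeCounting y := by
    rw [Nat.primeCounting, Nat.primeCounting', Nat.count_eq_card_filter_range]
    rfl
  rw [h2]
  refine le_trans ?_ h1
  have a2 := Real.log_two_gt_d9
  have b2 := Real.log_two_lt_d9
  have h3 := Real.log_le_sub_one_of_pos (x := ((y : ℝ) + 1) / 16) (by positivity)
  rw [Real.log_div (by positivity) (by norm_num)] at h3
  have h4 : Real.log 16 = 4 * Real.log 2 := by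
    rw [show (16 : ℝ) = 2 ^ 4 by norm_num, Real.log_pow]
    norm_num
  rw [h4] at h3
  have h5 : (0.693147180 : ℝ) * y ≤ Real.log 2 * y := by
    apply mul_le_mul_of_nonneg_right _ (by positivity)
    norm_num at a2 ⊢
    linarith
  norm_num at h5 b2 ⊢
  linarith

lemma analyticL {b ε : ℝ} (hε : 0 < ε) (hεb : ε < b) (hb1 : b ≤ 1) (R : ℕ) :
    ∀ᶠ L : ℝ in atTop, ∃ y : ℕ, 2 ≤ y ∧ 0 < Real.log L ∧ ∀ g ω : ℕ, (ω : ℝ) ≤ L →
      (Nat.primesLE y).card ≤ g + ω + R →
      (b - ε) / Real.log L * ∑ p ∈ Nat.primesLE y, Real.log p ≤ g * b - L := by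
  obtain ⟨η, hη⟩ : ∃ η : ℝ, η = ε / 2 := ⟨_, rfl⟩
  have hη0 : 0 < η := by rw [hη]; linarith
  obtain ⟨δ, hδ⟩ : ∃ δ : ℝ, δ = ε / (24 * (1 + η)) := ⟨_, rfl⟩
  have hδ0 : 0 < δ := by rw [hδ]; positivity
  have hlo := (isLittleO_log_rpow_atTop hη0).def hδ0
  filter_upwards [hlo, eventually_ge_atTop (max (R : ℝ) 32)] with L h1 h2
  have hLR : (R : ℝ) ≤ L := (le_max_left _ _).trans h2
  have hL32 : 32 ≤ L := (le_max_right _ _).trans h2
  have hL0 : 0 < L := by linarith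
  have hlL : 0 < Real.log L := Real.log_pos (by linarith)
  rw [Real.norm_of_nonneg hlL.le, Real.norm_of_nonneg (by positivity)] at h1
  obtain ⟨Z, hZ⟩ : ∃ Z : ℝ, Z = L ^ (1 + η) := ⟨_, rfl⟩
  have hZ1 : Z = L * L ^ η := by rw [hZ, Real.rpow_add hL0, Real.rpow_one]
  have hLη : 1 ≤ L ^ η := Real.one_le_rpow (by linarith) hη0.le
  have hZL : L ≤ Z := by rw [hZ1]; nlinarith
  obtain ⟨y, hy⟩ : ∃ y : ℕ, y = ⌊Z⌋₊ := ⟨_, rfl⟩
  have hyZ : (y : ℝ) ≤ Z := by rw [hy]; exact Nat.floor_le (by linarith)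
  have hZy : Z < y + 1 := by rw [hy]; exact Nat.lt_floor_add_one _
  have hyr : (31 : ℝ) ≤ y := by linarith
  have hy31 : 31 ≤ y := by exact_mod_cast hyr
  have hly : 0 < Real.log y := Real.log_pos (by linarith)
  have hlogy : Real.log y ≤ (1 + η) * Real.log L := by
    rw [← Real.log_rpow hL0, ← hZ]
    exact Real.log_le_log (by linarith) hyZ
  refine ⟨y, by omega, hlL, fun g ω hω hg => ?_⟩
  obtain ⟨N, hN⟩ : ∃ N : ℝ, N = ((Nat.primesLE y).card : ℝ) := ⟨_, rfl⟩
  have hN0 : 0 ≤ N := by rw [hN]; positivity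
  have hgN : N ≤ g + ω + R := by rw [hN]; exact_mod_cast hg
  have hmany := many_primes (y := y) (by omega)
  rw [← hN] at hmany
  -- the sum of the logarithms
  have hθ : ∑ p ∈ Nat.primesLE y, Real.log p ≤ N * Real.log y := by
    rw [hN, ← nsmul_eq_mul]
    apply sum_le_card_nsmul
    intro p hp
    have hp' := Nat.mem_primesLE.1 hp
    exact Real.log_le_log (by exact_mod_cast hp'.2.pos) (by exact_mod_cast hp'.1)
  have hθ2 : ∑ p ∈ Nat.primesLE y, Real.log p ≤ N * ((1 + η) * Real.log L) :=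
    hθ.trans (mul_le_mul_of_nonneg_left hlogy hN0)
  have hbε : 0 < b - ε := by linarith
  have hL1 : (b - ε) / Real.log L * ∑ p ∈ Nat.primesLE y, Real.log p ≤ (b - ε / 2) * N := by
    calc (b - ε) / Real.log L * ∑ p ∈ Nat.primesLE y, Real.log p
        ≤ (b - ε) / Real.log L * (N * ((1 + η) * Real.log L)) :=
          mul_le_mul_of_nonneg_left hθ2 (by positivity)
      _ = ((b - ε) * (1 + η)) * N := by
          field_simp
      _ ≤ (b - ε / 2) * N := by
          apply mul_le_mul_of_nonneg_right _ hN0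
          rw [hη]
          nlinarith
  have hR1 : N * b - 2 * L - R ≤ g * b - L := by
    have h3 : N * b ≤ (g + ω + R) * b := mul_le_mul_of_nonneg_right hgN (by linarith)
    have h4 : (ω : ℝ) * b ≤ L := by
      have h5 : (ω : ℝ) * b ≤ ω * 1 := mul_le_mul_of_nonneg_left hb1 (Nat.cast_nonneg _)
      linarith
    have h5 : (R : ℝ) * b ≤ R := by
      have h6 : (R : ℝ) * b ≤ R * 1 := mul_le_mul_of_nonneg_left hb1 (Nat.cast_nonneg _)
      linarith
    nlinarith
  have hkey : 2 * L + R ≤ ε / 2 * N := by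
    have h3 : Z / 4 ≤ N * Real.log y := by linarith
    have h4 : Z / 4 ≤ N * ((1 + η) * Real.log L) :=
      h3.trans (mul_le_mul_of_nonneg_left hlogy hN0)
    have h5 : Z / 4 ≤ N * ((1 + η) * (δ * L ^ η)) :=
      h4.trans (mul_le_mul_of_nonneg_left (mul_le_mul_of_nonneg_left h1 (by linarith)) hN0)
    have h6 : N * ((1 + η) * (δ * L ^ η)) = (N * ε / 24) * L ^ η := by
      rw [hδ]
      field_simp
    rw [h6, hZ1] at h5
    have h7 : L / 4 ≤ N * ε / 24 := by
      have h8 : L / 4 * L ^ η ≤ N * ε / 24 * L ^ η := by linarith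
      exact le_of_mul_le_mul_right h8 (by linarith)
    linarith
  linarith

lemma analytic {b ε : ℝ} (hε : 0 < ε) (hεb : ε < b) (hb1 : b ≤ 1) (R : ℕ) :
    ∀ᶠ K : ℝ in atTop, ∃ y : ℕ, 2 ≤ y ∧ 0 < Real.log (Real.log K) ∧ ∀ g ω : ℕ,
      (3 : ℝ) ^ ω ≤ K → (Nat.primesLE y).card ≤ g + ω + R →
      (b - ε) / Real.log (Real.log K) * ∑ p ∈ Nat.primesLE y, Real.log p ≤
        g * b - Real.log K := by
  filter_upwards [Real.tendsto_log_atTop.eventually (analyticL hε hεb hb1 R),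
    eventually_gt_atTop 0] with K h hK
  obtain ⟨y, hy, h1, h2⟩ := h
  refine ⟨y, hy, h1, fun g ω hω hg => h2 g ω ?_ hg⟩
  have h3 := Real.log_le_log (by positivity) hω
  rw [Real.log_pow] at h3
  have h4 : (1 : ℝ) ≤ Real.log 3 := by
    have := Real.log_three_gt_d9
    norm_num at this ⊢
    linarith
  have h5 : (ω : ℝ) * 1 ≤ ω * Real.log 3 := mul_le_mul_of_nonneg_left h4 (Nat.cast_nonneg _)
  linarith

/-- the large primes at which one gains -/
def goodR (R : ℕ) (P : Finset ℕ) (w : ℤ) : Finset ℕ := (good P w).filter fun p => R ≤ p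

lemma card_goodR {R : ℕ} {P : Finset ℕ} {w : ℤ} : (good P w).card ≤ (goodR R P w).card + R := by
  classical
  have h1 : good P w ⊆ goodR R P w ∪ range R := by
    intro p hp
    rw [mem_union, goodR, mem_filter, mem_range]
    by_cases h : R ≤ p
    · exact Or.inl ⟨hp, h⟩
    · exact Or.inr (by omega)
  have h2 := (card_le_card h1).trans (card_union_le _ _)
  rwa [card_range] at h2

lemma card_V_beta {P : Finset ℕ} (hP : ∀ p ∈ P, p.Prime) (u w : ℤ) {R : ℕ} (hR : 1 ≤ R) :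
    ((V (∏ p ∈ P, p) u w).card : ℝ) ≤ ((u.natAbs : ℝ) + w.natAbs + 1) *
      ((∏ p ∈ P, (p : ℝ)) * ((1 + 1 / R) / 2) ^ (goodR R P w).card) := by
  classical
  have h1 : ((V (∏ p ∈ P, p) u w).card : ℝ) ≤ ((u.natAbs : ℝ) + w.natAbs + 1) *
      ∏ p ∈ P, ((J u w p).card : ℝ) := by
    have := card_V_le hP u w
    exact_mod_cast this
  refine h1.trans (mul_le_mul_of_nonneg_left ?_ (by positivity))
  have h2 : (∏ p ∈ P, (p : ℝ)) * ((1 + 1 / R) / 2 : ℝ) ^ (goodR R P w).card =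
      ∏ p ∈ P, ((p : ℝ) * if (p ≠ 2 ∧ ¬ (p : ℤ) ∣ w) ∧ R ≤ p then ((1 + 1 / R) / 2 : ℝ) else 1) := by
    rw [prod_mul_distrib, prod_ite, prod_const, prod_const_one, mul_one, goodR, good,
      filter_filter]
  rw [h2]
  refine prod_le_prod (fun _ _ => by positivity) fun p hp => ?_
  split_ifs with h
  · have h3 := card_J (u := u) (hP p hp) h.1.1 h.1.2
    have h4 : (2 : ℝ) * (J u w p).card ≤ p + 1 := by exact_mod_cast h3
    have hR0 : (0 : ℝ) < R := by exact_mod_cast hR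
    have h5 : (R : ℝ) ≤ p := by exact_mod_cast h.2
    have h6 : (1 : ℝ) ≤ p * (1 / R) := by
      rw [mul_one_div, one_le_div hR0]
      exact h5
    have h7 : (p : ℝ) * ((1 + 1 / R) / 2) = (p + p * (1 / R)) / 2 := by ring
    rw [h7]
    linarith
  · rw [mul_one]
    exact_mod_cast card_J_le u w p

/-- The digits. -/
lemma exists_digits (n k : ℕ) {P : Finset ℕ} (hP : ∀ p ∈ P, p.Prime) {R : ℕ} (hR : 1 ≤ R) :
    ∃ (A : (Fin n → ℤ) → Fin n → ℤ) (D : Finset (Fin n → ℤ)),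
      AssouadVersion.Digits k (∏ p ∈ P, p) A D ∧
      (D.card : ℝ) ≤ (((k : ℝ) ^ 2 + 3 * k) / 2 *
        ((∏ p ∈ P, (p : ℝ)) * ((1 + 1 / R) / 2) ^ (goodR R P 1).card)) ^ n := by
  classical
  obtain ⟨M, hM⟩ : ∃ M : ℕ, M = ∏ p ∈ P, p := ⟨_, rfl⟩
  have hM0 : 0 < M := by rw [hM]; exact prod_pos fun p hp => (hP p hp).pos
  obtain ⟨D1, hD1⟩ : ∃ D1 : Finset ℤ, D1 = (range k).biUnion fun j : ℕ => V M (j : ℤ) 1 :=
    ⟨_, rfl⟩
  refine ⟨fun v i => (((v i).toNat ^ 2 % M : ℕ) : ℤ), Fintype.piFinset fun _ => D1, ?_, ?_⟩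
  · intro v hv j hj
    rw [Fintype.mem_piFinset]
    intro i
    obtain ⟨h1, h2⟩ := hv i
    rw [← hM] at h2
    rw [hD1, mem_biUnion]
    refine ⟨j, mem_range.2 hj, ?_⟩
    unfold V
    refine mem_image.2 ⟨(v i).toNat, mem_range.2 (by omega), ?_⟩
    simp only [Pi.add_apply, Pi.smul_apply, smul_eq_mul, one_mul]
    rw [Int.toNat_of_nonneg h1]
    ring
  · rw [Fintype.card_piFinset, prod_const, Finset.card_univ, Fintype.card_fin]
    push_cast
    apply pow_le_pow_left₀ (by positivity)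
    rw [← ParabDigits.sum_range_add_two]
    have h1 : (D1.card : ℝ) ≤ ∑ j ∈ range k, ((V M (j : ℤ) 1).card : ℝ) := by
      rw [hD1]
      exact_mod_cast card_biUnion_le
    refine h1.trans (sum_le_sum fun j _ => ?_)
    have h2 := card_V_beta hP (j : ℤ) 1 hR
    rw [← hM] at h2
    simpa using h2

/-- the parameters `β = (1 + 1/R)/2`, `b = log (1/β)` -/
lemma exists_R {ε : ℝ} (hε : 0 < ε) :
    ∃ R : ℕ, 1 ≤ R ∧ Real.log 2 - ε ≤ -Real.log ((1 + 1 / R) / 2) ∧
      -Real.log (((1 : ℝ) + 1 / R) / 2) ≤ Real.log 2 := by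
  obtain ⟨R, hR⟩ := exists_nat_ge (1 / ε)
  refine ⟨R + 1, by omega, ?_, ?_⟩
  · push_cast
    have h0 : (0 : ℝ) < (R : ℝ) + 1 := by positivity
    rw [Real.log_div (by positivity) (by norm_num)]
    have h1 := Real.log_le_sub_one_of_pos (x := 1 + 1 / ((R : ℝ) + 1)) (by positivity)
    have h2 : 1 / ((R : ℝ) + 1) ≤ ε := by
      rw [div_le_iff₀ h0]
      rw [div_le_iff₀ hε] at hR
      nlinarith
    linarith
  · push_cast
    rw [Real.log_div (by positivity) (by norm_num)]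
    have h1 : 0 ≤ Real.log (1 + 1 / ((R : ℝ) + 1)) := by
      apply Real.log_nonneg
      have : 0 < 1 / ((R : ℝ) + 1) := by positivity
      linarith
    linarith

/-- comparison of the iterated logarithms of `x` and of `x ^ 2` or `3 x + 1` -/
lemma compare {ε X x : ℝ} (hε : 0 < ε) (hε1 : ε ≤ 1 / 10) (hx : 1 / ε ≤ x) (hX : x < X)
    (hX2 : X ≤ x + Real.log 2) {b : ℝ} (hb : Real.log 2 - ε / 8 ≤ b) :
    (Real.log 2 - ε) / x ≤ (b - ε / 8) / X := by
  have a2 := Real.log_two_gt_d9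
  have b2 := Real.log_two_lt_d9
  have hx0 : 0 < x := lt_of_lt_of_le (by positivity) hx
  rw [div_le_iff₀ hε] at hx
  rw [div_le_div_iff₀ hx0 (by linarith)]
  have h1 : 0 ≤ Real.log 2 - ε := by
    norm_num at a2 ⊢
    linarith
  have h2 : (Real.log 2 - ε) * X ≤ (Real.log 2 - ε) * (x + Real.log 2) :=
    mul_le_mul_of_nonneg_left hX2 h1
  have h3 : (Real.log 2 - ε / 4) * x ≤ (b - ε / 8) * x :=
    mul_le_mul_of_nonneg_right (by linarith) hx0.le
  have h4 : (Real.log 2 - ε) * (x + Real.log 2) ≤ (Real.log 2 - ε / 4) * x := by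
    have h5 : Real.log 2 * Real.log 2 ≤ 3 / 4 := by
      have h6 : Real.log 2 ≤ 0.7 := by
        norm_num at b2 ⊢
        linarith
      have h7 : 0 < Real.log 2 := Real.log_pos (by norm_num)
      norm_num at h6 ⊢
      nlinarith
    have h7 : 0 < Real.log 2 := Real.log_pos (by norm_num)
    nlinarith
  linarith

/-- **The exponent of the digits for large `k`.** -/
theorem main {ε : ℝ} (hε : 0 < ε) :
    ∃ k₀ : ℕ, ∀ k : ℕ, k₀ ≤ k → 0 < Real.log (Real.log k) ∧ ∀ n : ℕ,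
      ∃ (N : ℕ) (A : (Fin n → ℤ) → Fin n → ℤ) (D : Finset (Fin n → ℤ)), 2 ≤ N ∧
        AssouadVersion.Digits k N A D ∧
        Real.log D.card / Real.log N ≤ n * (1 - (Real.log 2 - ε) / Real.log (Real.log k)) := by
  classical
  have a2 := Real.log_two_gt_d9
  have b2 := Real.log_two_lt_d9
  obtain ⟨e, he⟩ : ∃ e : ℝ, e = min ε (1 / 10) := ⟨_, rfl⟩
  have he0 : 0 < e := by rw [he]; exact lt_min hε (by norm_num)
  have he1 : e ≤ 1 / 10 := by rw [he]; exact min_le_right _ _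
  have heε : e ≤ ε := by rw [he]; exact min_le_left _ _
  obtain ⟨R, hR1, hR2, hR3⟩ := exists_R (ε := e / 8) (by linarith)
  obtain ⟨b, hb⟩ : ∃ b : ℝ, b = -Real.log (((1 : ℝ) + 1 / R) / 2) := ⟨_, rfl⟩
  rw [← hb] at hR2 hR3
  have hev := analytic (b := b) (ε := e / 8) (by linarith) (by
    norm_num at a2 ⊢
    linarith) (by
    norm_num at b2 ⊢
    linarith) (R + 1)
  have ht1 : Tendsto (fun k : ℕ => (k : ℝ) ^ 2) atTop atTop :=
    (tendsto_pow_atTop two_ne_zero).comp tendsto_natCast_atTop_atTop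
  have ht2 : Tendsto (fun k : ℕ => Real.log (Real.log k)) atTop atTop :=
    Real.tendsto_log_atTop.comp (Real.tendsto_log_atTop.comp tendsto_natCast_atTop_atTop)
  obtain ⟨k₀, hk₀⟩ := eventually_atTop.1 ((ht1.eventually hev).and
    ((ht2.eventually (eventually_ge_atTop (1 / e))).and (eventually_ge_atTop 3)))
  refine ⟨k₀, fun k hk => ?_⟩
  obtain ⟨⟨y, hy, hK, hana⟩, hx, hk3⟩ := hk₀ k hk
  have hx0 : 0 < Real.log (Real.log k) := lt_of_lt_of_le (by positivity) hx
  refine ⟨hx0, fun n => ?_⟩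
  have hkR : (3 : ℝ) ≤ k := by exact_mod_cast hk3
  have hlk : 0 < Real.log k := Real.log_pos (by linarith)
  have hlK : Real.log ((k : ℝ) ^ 2) = 2 * Real.log k := by
    rw [Real.log_pow]
    norm_num
  have hllK : Real.log (Real.log ((k : ℝ) ^ 2)) = Real.log (Real.log k) + Real.log 2 := by
    rw [hlK, Real.log_mul (by norm_num) hlk.ne']
    ring
  obtain ⟨P, hPd⟩ : ∃ P : Finset ℕ, P = Nat.primesLE y := ⟨_, rfl⟩
  rw [← hPd] at hana
  have hP : ∀ p ∈ P, p.Prime := fun p hp => Nat.prime_of_mem_primesLE (hPd ▸ hp)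
  obtain ⟨A, D, hD, hDc⟩ := exists_digits n k hP hR1
  obtain ⟨M, hM⟩ : ∃ M : ℕ, M = ∏ p ∈ P, p := ⟨_, rfl⟩
  have hM0 : 0 < M := by rw [hM]; exact prod_pos fun p hp => (hP p hp).pos
  have hM2 : 2 ≤ M := by
    have h2 : 2 ∈ P := by rw [hPd]; exact Nat.mem_primesLE.2 ⟨hy, Nat.prime_two⟩
    have h3 : 2 ∣ M := by rw [hM]; exact dvd_prod_of_mem _ h2
    exact Nat.le_of_dvd hM0 h3
  have hlogM : Real.log M = ∑ p ∈ P, Real.log p := by
    rw [hM]
    push_cast
    exact Real.log_prod fun p hp => by exact_mod_cast (hP p hp).ne_zero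
  have hlogM0 : 0 < Real.log M := Real.log_pos (by exact_mod_cast hM2)
  rw [← hM] at hD
  refine ⟨M, A, D, hM2, hD, ?_⟩
  have hMr : (∏ p ∈ P, (p : ℝ)) = M := by
    rw [hM]
    push_cast
    rfl
  rw [hMr] at hDc
  obtain ⟨ω, hω, hcard⟩ := card_bad hP (w := 1) one_ne_zero
  have hcard2 := card_goodR (R := R) (P := P) (w := 1)
  have hω' : (3 : ℝ) ^ ω ≤ (k : ℝ) ^ 2 := by
    have h1 : 3 ^ ω ≤ k ^ 2 := by
      simp only [Int.natAbs_one] at hω
      nlinarith
    exact_mod_cast h1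
  have hT := hana (goodR R P 1).card ω hω' (by omega)
  rw [← hlogM] at hT
  obtain ⟨g, hg⟩ : ∃ g : ℕ, g = (goodR R P 1).card := ⟨_, rfl⟩
  rw [← hg] at hT hDc
  have hne := AssouadVersion.nonempty_of_digits (by omega) hM2 hD
  have hD0 : (0 : ℝ) < D.card := by exact_mod_cast card_pos.2 hne
  have hMp : (0 : ℝ) < M := by exact_mod_cast hM0
  obtain ⟨c, hc⟩ : ∃ c : ℝ, c = ((k : ℝ) ^ 2 + 3 * k) / 2 := ⟨_, rfl⟩
  have hc0 : 0 < c := by
    rw [hc]
    nlinarith
  rw [← hc] at hDc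
  have hβ : (0 : ℝ) < (1 + 1 / R) / 2 := by positivity
  have h1 := Real.log_le_log hD0 hDc
  rw [Real.log_pow, Real.log_mul hc0.ne' (by positivity),
    Real.log_mul hMp.ne' (by positivity), Real.log_pow] at h1
  have h2 : Real.log c ≤ Real.log ((k : ℝ) ^ 2) := by
    apply Real.log_le_log hc0
    rw [hc]
    nlinarith
  have h3 : (g : ℝ) * Real.log ((1 + 1 / R) / 2) = -(g * b) := by rw [hb]; ring
  rw [h3] at h1
  have h4 := compare (X := Real.log (Real.log ((k : ℝ) ^ 2))) he0 he1 hx (by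
    rw [hllK]
    have : 0 < Real.log 2 := Real.log_pos (by norm_num)
    linarith) hllK.le (b := b) (by linarith)
  have h5 : (Real.log 2 - ε) / Real.log (Real.log k) ≤ (Real.log 2 - e) / Real.log (Real.log k) := by
    apply div_le_div_of_nonneg_right _ hx0.le
    linarith
  rw [div_le_iff₀ hlogM0]
  refine h1.trans ?_
  rw [mul_assoc]
  apply mul_le_mul_of_nonneg_left _ (Nat.cast_nonneg n)
  have h6 : (Real.log 2 - ε) / Real.log (Real.log k) * Real.log M ≤
      (b - e / 8) / Real.log (Real.log ((k : ℝ) ^ 2)) * Real.log M :=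
    mul_le_mul_of_nonneg_right (h5.trans h4) hlogM0.le
  have h7 : (1 - (Real.log 2 - ε) / Real.log (Real.log k)) * Real.log M =
      Real.log M - (Real.log 2 - ε) / Real.log (Real.log k) * Real.log M := by ring
  rw [h7]
  linarith

end Pool.Agent.H22.ParabAsym
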