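import Pool.Agent.H22.GH.Parab2
import Pool.Graph.R_pool_sql_team_seeded_63374d34.Results.MP_4b405e_nt.AssouadVersion

/-!
# Digit sets from a parabola modulo a product of primes

For `d ∈ {0, …, M-1}` the progression with first term `d ^ 2 mod M` and common difference `d`. If `M`
is the product of the primes up to `y`, these progressions of length `k` have together at most
`(k ^ 2 + 3 k) / 2 * M * (2 / 3) ^ (π(y) - 1)` different terms.
-/

set_option autoImplicit false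

namespace Pool.Agent.H22.ParabDigits

open Finset Pool.Agent.H22.GH.Parab Pool.Agent.Results.MP_4b405e_nt

lemma sum_range_add_two (k : ℕ) (C : ℝ) :
    ∑ j ∈ range k, (((j : ℝ) + 1 + 1) * C) = ((k : ℝ) ^ 2 + 3 * k) / 2 * C := by
  induction k with
  | zero => simp
  | succ k ih =>
    rw [sum_range_succ, ih]
    push_cast
    ring

/-- The digits. -/
lemma exists_digits (n k : ℕ) {P : Finset ℕ} (hP : ∀ p ∈ P, p.Prime) :
    ∃ (A : (Fin n → ℤ) → Fin n → ℤ) (D : Finset (Fin n → ℤ)),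
      AssouadVersion.Digits k (∏ p ∈ P, p) A D ∧
      (D.card : ℝ) ≤ (((k : ℝ) ^ 2 + 3 * k) / 2 *
        ((∏ p ∈ P, (p : ℝ)) * (2 / 3) ^ (good P 1).card)) ^ n := by
  classical
  obtain ⟨M, hM⟩ : ∃ M : ℕ, M = ∏ p ∈ P, p := ⟨_, rfl⟩
  have hM0 : 0 < M := by rw [hM]; exact prod_pos fun p hp => (hP p hp).pos
  obtain ⟨D1, hD1⟩ : ∃ D1 : Finset ℤ, D1 = (range k).biUnion fun j : ℕ => V M (j : ℤ) 1 :=
    ⟨_, rfl⟩
  refine ⟨fun v i => (((v i).toNat ^ 2 % M : ℕ) : ℤ), Fintype.piFinset fun _ => D1, ?_, ?_⟩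
  · intro v hv j hj
    rw [Fintype.mem_piFinset]
    intro i
    obtain ⟨h1, h2⟩ := hv i
    rw [← hM] at h2
    rw [hD1, mem_biUnion]
    refine ⟨j, mem_range.2 hj, ?_⟩
    unfold V
    refine mem_image.2 ⟨(v i).toNat, mem_range.2 (by omega), ?_⟩
    simp only [Pi.add_apply, Pi.smul_apply, smul_eq_mul, one_mul]
    rw [Int.toNat_of_nonneg h1]
    ring
  · rw [Fintype.card_piFinset, prod_const, Finset.card_univ, Fintype.card_fin]
    push_cast
    apply pow_le_pow_left₀ (by positivity)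
    rw [← sum_range_add_two]
    have h1 : (D1.card : ℝ) ≤ ∑ j ∈ range k, ((V M (j : ℤ) 1).card : ℝ) := by
      rw [hD1]
      exact_mod_cast card_biUnion_le
    refine h1.trans (sum_le_sum fun j _ => ?_)
    have h2 := card_V_real hP (j : ℤ) 1
    rw [← hM] at h2
    simpa using h2

/-- The exponent of the digits. -/
theorem main (n : ℕ) {k : ℕ} (hk : 4 ≤ k) :
    ∃ (N : ℕ) (A : (Fin n → ℤ) → Fin n → ℤ) (D : Finset (Fin n → ℤ)), 2 ≤ N ∧
      AssouadVersion.Digits k N A D ∧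
      Real.log D.card / Real.log N ≤ n * (1 - 1 / (24 * Real.log (14 * Real.log k))) := by
  classical
  obtain ⟨H, hH⟩ : ∃ H : ℕ, H = (k ^ 2 - 1) / 3 := ⟨_, rfl⟩
  have hk2 : 16 ≤ k ^ 2 := by nlinarith
  have hH1 : 1 ≤ H := by omega
  have hH2 : 3 * H + 1 ≤ k ^ 2 := by omega
  have hH3 : k ^ 2 ≤ 3 * H + 3 := by omega
  have hH4 : k ^ 2 + 3 * k ≤ 2 * (3 * H + 1) := by nlinarith
  obtain ⟨y, hy, hlam, hana⟩ := analytic hH1
  have hk1 : (4 : ℝ) ≤ k := by exact_mod_cast hk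
  have hlogk : 1.38 < Real.log k := by
    have h1 : Real.log 4 ≤ Real.log k := Real.log_le_log (by norm_num) hk1
    have h2 : Real.log 4 = 2 * Real.log 2 := by
      rw [show (4 : ℝ) = 2 ^ 2 by norm_num, Real.log_pow]
      norm_num
    have h3 := Real.log_two_gt_d9
    rw [h2] at h1
    norm_num at h3 ⊢
    linarith
  -- the two logarithms
  have hL : Real.log (3 * H + 1) ≤ 2 * Real.log k := by
    have h1 : Real.log (3 * H + 1) ≤ Real.log ((k : ℝ) ^ 2) := by
      apply Real.log_le_log (by positivity)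
      exact_mod_cast hH2
    rw [Real.log_pow] at h1
    exact_mod_cast h1
  have hL0 : 0 < Real.log (3 * H + 1) := by
    apply Real.log_pos
    have : (1 : ℝ) ≤ H := by exact_mod_cast hH1
    linarith
  obtain ⟨lam, hl⟩ : ∃ lam : ℝ, lam = 24 * Real.log (7 * Real.log (3 * H + 1)) := ⟨_, rfl⟩
  obtain ⟨lam', hl'⟩ : ∃ lam' : ℝ, lam' = 24 * Real.log (14 * Real.log k) := ⟨_, rfl⟩
  have hll : lam ≤ lam' := by
    rw [hl, hl']
    apply mul_le_mul_of_nonneg_left _ (by norm_num)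
    apply Real.log_le_log (by positivity)
    linarith
  rw [← hl] at hlam hana
  rw [← hl']
  obtain ⟨P, hPd⟩ : ∃ P : Finset ℕ, P = Nat.primesLE y := ⟨_, rfl⟩
  rw [← hPd] at hana
  have hP : ∀ p ∈ P, p.Prime := fun p hp => Nat.prime_of_mem_primesLE (hPd ▸ hp)
  obtain ⟨A, D, hD, hDc⟩ := exists_digits n k hP
  obtain ⟨M, hM⟩ : ∃ M : ℕ, M = ∏ p ∈ P, p := ⟨_, rfl⟩
  have hM0 : 0 < M := by rw [hM]; exact prod_pos fun p hp => (hP p hp).pos
  have hM2 : 2 ≤ M := by
    have h2 : 2 ∈ P := by rw [hPd]; exact Nat.mem_primesLE.2 ⟨hy, Nat.prime_two⟩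
    have h3 : 2 ∣ M := by rw [hM]; exact dvd_prod_of_mem _ h2
    exact Nat.le_of_dvd hM0 h3
  have hlogM : Real.log M = ∑ p ∈ P, Real.log p := by
    rw [hM]
    push_cast
    exact Real.log_prod fun p hp => by exact_mod_cast (hP p hp).ne_zero
  have hlogM0 : 0 < Real.log M := Real.log_pos (by exact_mod_cast hM2)
  rw [← hM] at hD
  refine ⟨M, A, D, hM2, hD, ?_⟩
  have hMr : (∏ p ∈ P, (p : ℝ)) = M := by
    rw [hM]
    push_cast
    rfl
  rw [hMr] at hDc
  obtain ⟨ω, hω, hcard⟩ := card_bad hP (w := 1) one_ne_zero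
  have hω' : (3 : ℝ) ^ ω ≤ 3 * H + 1 := by
    have h1 : 3 ^ ω ≤ 3 * H + 1 := by
      simp only [Int.natAbs_one] at hω
      omega
    exact_mod_cast h1
  have hT := hana _ ω hω' hcard
  rw [← hlogM] at hT
  obtain ⟨g, hg⟩ : ∃ g : ℕ, g = (good P 1).card := ⟨_, rfl⟩
  rw [← hg] at hT hDc
  have hne := AssouadVersion.nonempty_of_digits (by omega) hM2 hD
  have hD0 : (0 : ℝ) < D.card := by exact_mod_cast card_pos.2 hne
  have hMp : (0 : ℝ) < M := by exact_mod_cast hM0
  obtain ⟨c, hc⟩ : ∃ c : ℝ, c = ((k : ℝ) ^ 2 + 3 * k) / 2 := ⟨_, rfl⟩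
  have hc0 : 0 < c := by
    rw [hc]
    nlinarith
  rw [← hc] at hDc
  have h1 := Real.log_le_log hD0 hDc
  rw [Real.log_pow, Real.log_mul hc0.ne' (by positivity),
    Real.log_mul hMp.ne' (by positivity), Real.log_pow,
    Real.log_div (by norm_num) (by norm_num)] at h1
  have h2 : Real.log c ≤ Real.log (3 * H + 1) := by
    apply Real.log_le_log hc0
    rw [hc]
    have : ((k ^ 2 + 3 * k : ℕ) : ℝ) ≤ ((2 * (3 * H + 1) : ℕ) : ℝ) := by exact_mod_cast hH4
    push_cast at this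
    linarith
  have hlam0 : 0 < lam := by linarith
  have h3 : Real.log M / lam ≤ g * (Real.log 3 - Real.log 2) - Real.log (3 * H + 1) := by
    rw [div_le_iff₀ hlam0]
    linarith
  have h4 : Real.log M / lam' ≤ Real.log M / lam :=
    div_le_div_of_nonneg_left hlogM0.le hlam0 hll
  rw [div_le_iff₀ hlogM0]
  refine h1.trans ?_
  rw [mul_assoc]
  apply mul_le_mul_of_nonneg_left _ (Nat.cast_nonneg n)
  have h5 : (1 - 1 / lam') * Real.log M = Real.log M - Real.log M / lam' := by ring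
  rw [h5]
  have h6 : (g : ℝ) * (Real.log 2 - Real.log 3) = -(g * (Real.log 3 - Real.log 2)) := by ring
  rw [h6]
  linarith

/-- the denominator -/
lemma denom {k : ℕ} (hk : 2 ≤ k) : 50 < 24 * Real.log (14 * Real.log k) := by
  have hk1 : (2 : ℝ) ≤ k := by exact_mod_cast hk
  have h1 : Real.log 2 ≤ Real.log k := Real.log_le_log (by norm_num) hk1
  have h3 := Real.log_two_gt_d9
  have h4 : (9.7 : ℝ) ≤ 14 * Real.log k := by
    norm_num at h3 ⊢
    linarith
  have h5 : Real.log 9.7 ≤ Real.log (14 * Real.log k) := Real.log_le_log (by norm_num) h4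
  have h6 : 2.1 < Real.log 9.7 := by
    rw [Real.lt_log_iff_exp_lt (by norm_num)]
    have h7 := Real.exp_one_lt_d9
    have h8 : Real.exp 2.1 = Real.exp 1 ^ 2 * Real.exp 0.1 := by
      rw [← Real.exp_nat_mul, ← Real.exp_add]
      norm_num
    have h9 : Real.exp 0.1 ≤ 1.1112 := by
      have := Real.exp_bound_div_one_sub_of_interval (x := 0.1) (by norm_num) (by norm_num)
      norm_num at this ⊢
      linarith
    rw [h8]
    have h10 : Real.exp 1 ^ 2 ≤ 2.7182818286 ^ 2 :=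
      pow_le_pow_left₀ (Real.exp_pos _).le h7.le 2
    calc Real.exp 1 ^ 2 * Real.exp 0.1 ≤ 2.7182818286 ^ 2 * 1.1112 :=
          mul_le_mul h10 h9 (Real.exp_pos _).le (by positivity)
      _ < 9.7 := by norm_num
  norm_num at h6 h5 ⊢
  linarith

end Pool.Agent.H22.ParabDigits
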